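import Pool.Agent.Helper87.AG.Sep

/-! There is no equivariant map from a connected, locally connected compact space in which
circle-valued maps lift, to a compact space with a base of open sets with totally disconnected
boundaries on which the nontrivial compact group `G` acts freely. -/

set_option autoImplicit false

namespace Pool.Agent.Helper87.AG

open Set Topology

section Fibre

variable {X Y : Type} [MetricSpace X] [CompactSpace X] [PreconnectedSpace X]
  [LocallyConnectedSpace X] [TopologicalSpace Y] [T2Space Y] [CompactSpace Y]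

/-- The component of `x` in the fibre of `f` through `x`. -/
noncomputable def fc (f : X → Y) (x : X) : Set X := connectedComponentIn (f ⁻¹' {f x}) x

omit [CompactSpace X] [PreconnectedSpace X] [LocallyConnectedSpace X] [CompactSpace Y]
  [T2Space Y] [TopologicalSpace Y] in
theorem mem_fc (f : X → Y) (x : X) : x ∈ fc f x :=
  mem_connectedComponentIn (by simp)

omit [CompactSpace X] [PreconnectedSpace X] [LocallyConnectedSpace X] [CompactSpace Y]
  [T2Space Y] [TopologicalSpace Y] in
theorem fc_sub (f : X → Y) (x : X) : ∀ y ∈ fc f x, f y = f x := by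
  intro y hy
  have h : fc f x ⊆ f ⁻¹' {f x} := connectedComponentIn_subset (f ⁻¹' {f x}) x
  exact h hy

omit [CompactSpace X] [PreconnectedSpace X] [LocallyConnectedSpace X] [CompactSpace Y]
  [T2Space Y] [TopologicalSpace Y] in
theorem fc_conn (f : X → Y) (x : X) : IsPreconnected (fc f x) :=
  isPreconnected_connectedComponentIn

omit [CompactSpace X] [PreconnectedSpace X] [LocallyConnectedSpace X] [CompactSpace Y]
  [T2Space Y] [TopologicalSpace Y] in
theorem fc_eq {f : X → Y} {x y : X} (h : y ∈ fc f x) : fc f x = fc f y := by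
  unfold fc
  rw [fc_sub f x y h]
  exact connectedComponentIn_eq h

omit [CompactSpace X] [PreconnectedSpace X] [LocallyConnectedSpace X] [CompactSpace Y] in
theorem fc_closed {f : X → Y} (hf : Continuous f) (x : X) : IsClosed (fc f x) := by
  have h1 : closure (fc f x) ⊆ fc f x := by
    intro z hz
    have hF : IsClosed (f ⁻¹' {f x}) := isClosed_singleton.preimage hf
    have h2 : closure (fc f x) ⊆ f ⁻¹' {f x} :=
      closure_minimal (connectedComponentIn_subset _ _) hF
    exact closure_comp_inter_subset ⟨hz, h2 hz⟩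
  exact closure_eq_iff_isClosed.mp (subset_antisymm h1 subset_closure)

omit [CompactSpace X] [PreconnectedSpace X] [LocallyConnectedSpace X] [CompactSpace Y]
  [T2Space Y] [TopologicalSpace Y] in
theorem fc_disj {f : X → Y} {x y z : X} (h : y ∉ fc f x) (hz : z ∈ fc f y) : z ∉ fc f x := by
  intro hz'
  apply h
  rw [fc_eq hz', ← fc_eq hz]
  exact mem_fc f y

omit [PreconnectedSpace X] [LocallyConnectedSpace X] [CompactSpace Y] in
/-- A point outside the fibre component can be split off by a closed partition of the fibre. -/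
theorem exists_partition {f : X → Y} (hf : Continuous f) {x₁ x₂ : X} (h : x₂ ∉ fc f x₁) :
    ∃ Q Q' : Set X, IsClosed Q ∧ IsClosed Q' ∧ Q ∪ Q' = f ⁻¹' {f x₁} ∧ Disjoint Q Q' ∧
      x₁ ∈ Q ∧ x₂ ∉ Q := by
  have hF : IsClosed (f ⁻¹' {f x₁}) := isClosed_singleton.preimage hf
  by_cases hx : f x₂ = f x₁
  · have : CompactSpace (f ⁻¹' {f x₁}) := isCompact_iff_compactSpace.mp hF.isCompact
    have h1 : (⟨x₂, hx⟩ : f ⁻¹' {f x₁}) ∉ connectedComponent (⟨x₁, rfl⟩ : f ⁻¹' {f x₁}) := by
      intro h2
      apply h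
      unfold fc
      rw [connectedComponentIn_eq_image (show x₁ ∈ f ⁻¹' {f x₁} from rfl)]
      exact ⟨_, h2, rfl⟩
    rw [connectedComponent_eq_iInter_isClopen, mem_iInter] at h1
    push Not at h1
    obtain ⟨⟨Z, hZ, hxZ⟩, hx2⟩ := h1
    refine ⟨Subtype.val '' Z, Subtype.val '' Zᶜ, ?_, ?_, ?_, ?_, ⟨_, hxZ, rfl⟩, ?_⟩
    · exact hF.isClosedEmbedding_subtypeVal.isClosedMap _ hZ.1
    · exact hF.isClosedEmbedding_subtypeVal.isClosedMap _ hZ.2.isClosed_compl
    · rw [← image_union, union_compl_self, image_univ, Subtype.range_coe]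
    · rw [disjoint_image_iff Subtype.val_injective]
      exact disjoint_compl_right
    · rintro ⟨z, hz, hzx⟩
      apply hx2
      have : z = ⟨x₂, hx⟩ := Subtype.ext hzx
      rw [← this]
      exact hz
  · exact ⟨f ⁻¹' {f x₁}, ∅, hF, isClosed_empty, union_empty _, disjoint_bot_right, rfl,
      fun h => hx h⟩

/-- Two different fibre components are separated by a third one. -/
theorem exists_sep
    (hlift : ∀ φ : C(X, Circle), ∃ θ : C(X, ℝ), ∀ x, φ x = Circle.exp (θ x))
    (hY : ∀ (y : Y) (U : Set Y), IsOpen U → y ∈ U → ∃ O : Set Y, IsOpen O ∧ y ∈ O ∧ O ⊆ U ∧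
      IsTotallyDisconnected (frontier O))
    {f : X → Y} (hf : Continuous f) {x₁ x₂ : X} (h : x₂ ∉ fc f x₁) :
    ∃ c : X, x₁ ∉ fc f c ∧ x₂ ∉ fc f c ∧ x₂ ∉ connectedComponentIn (fc f c)ᶜ x₁ := by
  obtain ⟨Q, Q', hQ, hQ', hQQ, hdis, hx1, hx2⟩ := exists_partition hf h
  -- the component of x₂ misses Q
  have hK2 : ∀ z ∈ fc f x₂, z ∉ Q := by
    intro z hz hzQ
    have hfz : f x₂ = f x₁ := by
      rw [← fc_sub f x₂ z hz]
      have : z ∈ f ⁻¹' {f x₁} := by rw [← hQQ]; exact Or.inl hzQ
      exact this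
    have hsub : fc f x₂ ⊆ Q ∪ Q' := by
      rw [hQQ]
      intro w hw
      show f w = f x₁
      rw [fc_sub f x₂ w hw, hfz]
    rcases isPreconnected_iff_subset_of_disjoint_closed.1 (fc_conn f x₂) Q Q' hQ hQ' hsub (by
      rw [hdis.inter_eq, inter_empty]) with h1 | h1
    · exact hx2 (h1 (mem_fc f x₂))
    · exact disjoint_left.1 hdis hzQ (h1 hz)
  obtain ⟨N, hN, hQN, hNcl⟩ := normal_exists_closure_subset hQ
    ((hQ'.union (fc_closed hf x₂)).isOpen_compl) (by
      intro z hz hz'
      rcases hz' with hz' | hz'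
      · exact disjoint_left.1 hdis hz hz'
      · exact hK2 z hz' hz)
  have hy1 : f x₁ ∉ f '' frontier N := by
    rintro ⟨z, hz, hzf⟩
    have hzF : z ∈ Q ∪ Q' := by rw [hQQ]; exact hzf
    rcases hzF with hzF | hzF
    · rw [hN.frontier_eq] at hz
      exact hz.2 (hQN hzF)
    · exact hNcl (frontier_subset_closure hz) (Or.inl hzF)
  have hUc : IsClosed (f '' frontier N) :=
    (isClosed_frontier.isCompact.image hf).isClosed
  obtain ⟨U', hU', hyU', hU'cl⟩ := normal_exists_closure_subset
    (isClosed_singleton (x := f x₁)) hUc.isOpen_compl (by simpa using hy1)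
  obtain ⟨O, hO, hyO, hOU, hOtd⟩ := hY (f x₁) U' hU' (hyU' rfl)
  have hOcl : ∀ y ∈ closure O, y ∉ f '' frontier N := by
    intro y hy
    exact hU'cl (closure_mono hOU hy)
  set W : Set X := f ⁻¹' O ∩ N with hW
  have hWo : IsOpen W := (hO.preimage hf).inter hN
  have hWf : ∀ z ∈ closure W, f z ∈ closure O := by
    intro z hz
    have : z ∈ closure (f ⁻¹' O) := closure_mono inter_subset_left hz
    exact hf.closure_preimage_subset _ this
  have hWN' : ∀ z ∈ closure W, z ∈ closure N := fun z hz => closure_mono inter_subset_right hz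
  have hWN : ∀ z ∈ closure W, z ∈ N := by
    intro z hz
    by_contra hzN
    apply hOcl (f z) (hWf z hz)
    refine ⟨z, ?_, rfl⟩
    rw [hN.frontier_eq]
    exact ⟨hWN' z hz, hzN⟩
  have hx1W : x₁ ∈ W := ⟨hyO, hQN hx1⟩
  have hx1Wfc : ∀ z ∈ fc f x₁, z ∈ W := by
    intro z hz
    have hzf : f z = f x₁ := fc_sub f x₁ z hz
    refine ⟨?_, ?_⟩
    · show f z ∈ O
      rw [hzf]
      exact hyO
    · apply hQN
      have hsub : fc f x₁ ⊆ Q ∪ Q' := by
        rw [hQQ]
        exact connectedComponentIn_subset _ _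
      rcases isPreconnected_iff_subset_of_disjoint_closed.1 (fc_conn f x₁) Q Q' hQ hQ' hsub (by
        rw [hdis.inter_eq, inter_empty]) with h1 | h1
      · exact h1 hz
      · exact (disjoint_left.1 hdis hx1 (h1 (mem_fc f x₁))).elim
  have hx2W : ∀ z ∈ fc f x₂, z ∉ closure W := fun z hz hz' =>
    hNcl (hWN' z hz') (Or.inr hz)
  set E : Set X := frontier W with hE
  have hEcl : IsClosed E := isClosed_frontier
  have hEf : ∀ z ∈ E, f z ∈ frontier O := by
    intro z hz
    rw [hE, hWo.frontier_eq] at hz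
    rw [hO.frontier_eq]
    exact ⟨hWf z hz.1, fun hzO => hz.2 ⟨hzO, hWN z hz.1⟩⟩
  have hx1E : x₁ ∉ E := by
    intro hz
    rw [hE, hWo.frontier_eq] at hz
    exact hz.2 hx1W
  have hsep : x₂ ∉ connectedComponentIn Eᶜ x₁ := by
    intro hx
    have h1 : connectedComponentIn Eᶜ x₁ ⊆ W := by
      refine isPreconnected_connectedComponentIn.subset_of_closure_inter_subset hWo
        ⟨x₁, mem_connectedComponentIn hx1E, hx1W⟩ ?_
      rintro z ⟨hz1, hz2⟩
      by_contra hzW
      have hzE : z ∈ E := by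
        rw [hE, hWo.frontier_eq]
        exact ⟨hz1, hzW⟩
      exact connectedComponentIn_subset _ _ hz2 hzE
    exact hx2W x₂ (mem_fc f x₂) (subset_closure (h1 hx))
  obtain ⟨E', hE'E, hE'c, hE'conn, ⟨c, hc⟩, hE'sep⟩ :=
    exists_connected_separator hlift hEcl hx1E hsep
  have hfE' : ∀ z ∈ E', f z = f c := by
    intro z hz
    have h1 : IsPreconnected (f '' E') := hE'conn.image _ hf.continuousOn
    have h2 : (f '' E').Subsingleton := hOtd _ (by
      rintro _ ⟨w, hw, rfl⟩
      exact hEf w (hE'E hw)) h1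
    exact h2 ⟨z, hz, rfl⟩ ⟨c, hc, rfl⟩
  have hE'fc : E' ⊆ fc f c := hE'conn.subset_connectedComponentIn hc (fun z hz => hfE' z hz)
  refine ⟨c, ?_, ?_, ?_⟩
  · intro hx
    have hcW : c ∈ W := by
      apply hx1Wfc
      rw [← fc_eq hx]
      exact mem_fc f c
    have : c ∈ frontier W := hE'E hc
    rw [hWo.frontier_eq] at this
    exact this.2 hcW
  · intro hx
    apply hx2W c
    · rw [← fc_eq hx]
      exact mem_fc f c
    · exact frontier_subset_closure (hE'E hc)
  · intro hx
    exact hE'sep (connectedComponentIn_mono _ (compl_subset_compl.2 hE'fc) hx)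

end Fibre

section Equiv

variable {X Y G : Type} [MetricSpace X] [CompactSpace X] [PreconnectedSpace X]
  [LocallyConnectedSpace X] [TopologicalSpace Y] [T2Space Y] [CompactSpace Y]
  [Group G] [TopologicalSpace G] [CompactSpace G]
  [MulAction G X] [ContinuousSMul G X] [MulAction G Y] [ContinuousSMul G Y]

omit [CompactSpace X] [PreconnectedSpace X] [LocallyConnectedSpace X] [CompactSpace G] in
theorem smul_comp (k : G) {F F' : Set X} (hF : ∀ x, k • x ∈ F' ↔ x ∈ F) {y z : X}
    (h : z ∈ connectedComponentIn F y) : k • z ∈ connectedComponentIn F' (k • y) := by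
  have hy : y ∈ F := by
    by_contra hy
    rw [connectedComponentIn_eq_empty hy] at h
    exact h
  have hc : Continuous fun x : X => k • x := continuous_const_smul k
  have h1 : IsPreconnected ((fun x : X => k • x) '' connectedComponentIn F y) :=
    isPreconnected_connectedComponentIn.image _ hc.continuousOn
  have h2 : (fun x : X => k • x) '' connectedComponentIn F y ⊆ F' := by
    rintro _ ⟨w, hw, rfl⟩
    exact (hF w).2 (connectedComponentIn_subset _ _ hw)
  exact h1.subset_connectedComponentIn ⟨y, mem_connectedComponentIn hy, rfl⟩ h2 ⟨z, h, rfl⟩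

variable {f : X → Y}

omit [CompactSpace X] [PreconnectedSpace X] [LocallyConnectedSpace X] [CompactSpace G]
  [CompactSpace Y] [T2Space Y] [ContinuousSMul G Y] [TopologicalSpace Y] in
theorem smul_mem_fc (hfe : ∀ (g : G) (x : X), f (g • x) = g • f x) (k : G) {x z : X} :
    k • z ∈ fc f (k • x) ↔ z ∈ fc f x := by
  have key : ∀ (k : G) {x z : X}, z ∈ fc f x → k • z ∈ fc f (k • x) := by
    intro k x z h
    refine smul_comp k (fun w => ?_) h
    simp only [mem_preimage, mem_singleton_iff, hfe]
    exact smul_left_cancel_iff k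
  refine ⟨fun h => ?_, key k⟩
  have := key k⁻¹ h
  simpa using this

omit [CompactSpace X] [PreconnectedSpace X] [LocallyConnectedSpace X] [CompactSpace G]
  [CompactSpace Y] [T2Space Y] [ContinuousSMul G Y] [TopologicalSpace Y] in
theorem smul_mem_comp (hfe : ∀ (g : G) (x : X), f (g • x) = g • f x) (k : G) {x y z : X} :
    k • z ∈ connectedComponentIn (fc f (k • x))ᶜ (k • y) ↔
      z ∈ connectedComponentIn (fc f x)ᶜ y := by
  refine ⟨fun h => ?_, fun h => smul_comp k (fun w => ?_) h⟩
  · have := smul_comp k⁻¹ (F := (fc f (k • x))ᶜ) (F' := (fc f x)ᶜ) (fun w => ?_) h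
    · simpa using this
    · rw [mem_compl_iff, mem_compl_iff, not_iff_not, ← smul_mem_fc hfe k]
      simp
  · rw [mem_compl_iff, mem_compl_iff, not_iff_not, smul_mem_fc hfe k]

/-- All other translates of `x` lie in one component of the complement of the fibre component. -/
theorem translates_one_side [Nontrivial G] (hf : Continuous f)
    (hfe : ∀ (g : G) (x : X), f (g • x) = g • f x)
    (hfree : ∀ (g : G) (y : Y), g • y = y → g = 1) (x : X) {g h : G} (hg : g ≠ 1) (hh : h ≠ 1) :
    h • x ∈ connectedComponentIn (fc f x)ᶜ (g • x) := by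
  classical
  set Z : Set X := range (fun g : G => g • x) with hZ
  have hZc : IsCompact Z := by
    rw [hZ, ← image_univ]
    exact isCompact_univ.image (continuous_id.smul continuous_const)
  -- points of the orbit are in different fibres
  have hdist : ∀ z ∈ Z, ∀ z' ∈ Z, z ≠ z' → f z ≠ f z' := by
    rintro _ ⟨a, rfl⟩ _ ⟨b, rfl⟩ hab hfab
    apply hab
    simp only [hfe] at hfab
    have h1 : (b⁻¹ * a) • f x = f x := by
      rw [mul_smul, hfab, ← mul_smul, inv_mul_cancel, one_smul]
    have h2 := hfree _ _ h1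
    have h3 : a = b := by
      have := congrArg (fun t => b * t) h2
      simpa using this
    show a • x = b • x
    rw [h3]
  have hnfc : ∀ z ∈ Z, ∀ z' ∈ Z, z ≠ z' → z' ∉ fc f z := by
    intro z hz z' hz' hne hmem
    exact hdist z hz z' hz' hne (fc_sub f z z' hmem).symm
  have hxZ : x ∈ Z := ⟨1, one_smul _ _⟩
  let D : X → Set X := fun z => (connectedComponentIn (fc f z)ᶜ x)ᶜ
  have hDc : ∀ z, IsClosed (D z) := by
    intro z
    exact ((fc_closed hf z).isOpen_compl.connectedComponentIn).isClosed_compl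
  have hDself : ∀ z, z ∈ D z := by
    intro z hz
    exact connectedComponentIn_subset _ _ hz (mem_fc f z)
  have hDx : ∀ z ∈ Z, z ≠ x → x ∉ D z := by
    intro z hz hzx hxD
    apply hxD
    exact mem_connectedComponentIn (hnfc z hz x hxZ hzx)
  have hmono : ∀ z ∈ Z, z ≠ x → ∀ z' ∈ Z, z' ≠ x → z' ∈ D z → z' ≠ z →
      D z' ⊆ D z ∧ z ∉ D z' := by
    intro z hz hzx z' hz' hz'x hz'D hne
    have h1 : connectedComponentIn (fc f z)ᶜ x ∪ fc f z ⊆ connectedComponentIn (fc f z')ᶜ x := by
      have hR : IsPreconnected (connectedComponentIn (fc f z)ᶜ x ∪ fc f z) :=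
        isPreconnected_comp_union (fc_closed hf z) (fc_conn f z) ⟨z, mem_fc f z⟩ x
      refine hR.subset_connectedComponentIn (Or.inl (mem_connectedComponentIn
        (hnfc z hz x hxZ hzx))) ?_
      rintro w (hw | hw) hw'
      · -- the component of z' would lie in the component of x
        apply hz'D
        have hsub : fc f z' ⊆ (fc f z)ᶜ := fun v hv =>
          fc_disj (hnfc z hz z' hz' hne.symm) hv
        exact subset_comp_of_meets (fc_conn f z') hsub hw' hw (mem_fc f z')
      · exact fc_disj (hnfc z hz z' hz' hne.symm) hw' hw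
    refine ⟨compl_subset_compl.2 (subset_union_left.trans h1), fun hzD => hzD (h1 (Or.inr
      (mem_fc f z)))⟩
  let S : Set (Set X) := {s | ∃ z ∈ Z, z ≠ x ∧ s = D z ∩ Z}
  obtain ⟨g₀, hg₀⟩ := exists_ne (1 : G)
  have hz₀ : g₀ • x ≠ x := by
    intro h0
    apply hg₀
    apply hfree g₀ (f x)
    rw [← hfe, h0]
  obtain ⟨m, -, hm⟩ := zorn_superset_nonempty S (by
    intro c hcS hchain hcne
    have : Nonempty c := hcne.to_subtype
    have hne : (⋂₀ c).Nonempty := by
      refine IsCompact.nonempty_sInter_of_directed_nonempty_isCompact_isClosed ?_ ?_ ?_ ?_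
      · intro s hs t ht
        rcases hchain.total hs ht with h1 | h1
        · exact ⟨s, hs, subset_rfl, h1⟩
        · exact ⟨t, ht, h1, subset_rfl⟩
      · intro s hs
        obtain ⟨z, hz, -, rfl⟩ := hcS hs
        exact ⟨z, hDself z, hz⟩
      · intro s hs
        obtain ⟨z, hz, -, rfl⟩ := hcS hs
        exact hZc.inter_left (hDc z)
      · intro s hs
        obtain ⟨z, hz, -, rfl⟩ := hcS hs
        exact (hDc z).inter hZc.isClosed
    obtain ⟨y, hy⟩ := hne
    obtain ⟨s₀, hs₀⟩ := hcne
    obtain ⟨z₀, hz₀Z, hz₀x, hs₀eq⟩ := hcS hs₀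
    have hyZ : y ∈ Z := by
      have := mem_sInter.1 hy s₀ hs₀
      rw [hs₀eq] at this
      exact this.2
    have hyx : y ≠ x := by
      rintro rfl
      have := mem_sInter.1 hy s₀ hs₀
      rw [hs₀eq] at this
      exact hDx z₀ hz₀Z hz₀x this.1
    refine ⟨D y ∩ Z, ⟨y, hyZ, hyx, rfl⟩, ?_⟩
    intro s hs
    obtain ⟨z, hz, hzx, hseq⟩ := hcS hs
    have hyD : y ∈ D z := by
      have := mem_sInter.1 hy s hs
      rw [hseq] at this
      exact this.1
    rw [hseq]
    by_cases hyz : y = z
    · rw [hyz]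
    · exact inter_subset_inter_left _ (hmono z hz hzx y hyZ hyx hyD hyz).1)
    (D (g₀ • x) ∩ Z) ⟨g₀ • x, ⟨g₀, rfl⟩, hz₀, rfl⟩
  obtain ⟨⟨z, hzZ, hzx, rfl⟩, hmin⟩ := hm
  -- no other point of the orbit is behind z
  have hz : ∀ z' ∈ Z, z' ≠ z → z' ∈ connectedComponentIn (fc f z)ᶜ x := by
    intro z' hz' hne
    by_contra hcon
    have hz'x : z' ≠ x := by
      rintro rfl
      exact hcon (mem_connectedComponentIn (hnfc z hzZ z' hxZ hzx))
    obtain ⟨h1, h2⟩ := hmono z hzZ hzx z' hz' hz'x hcon hne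
    have h3 : D z ∩ Z ⊆ D z' ∩ Z :=
      hmin ⟨z', hz', hz'x, rfl⟩ (inter_subset_inter_left _ h1)
    exact h2 (h3 ⟨hDself z, hzZ⟩).1
  obtain ⟨k, rfl⟩ := hzZ
  have hk : ∀ l : G, l ≠ 1 → (k * l) • x ∈ connectedComponentIn (fc f (k • x))ᶜ x := by
    intro l hl
    apply hz _ ⟨k * l, rfl⟩
    intro heq
    apply hl
    apply hfree l (f x)
    have h1 : k • (l • x) = k • x := by rw [← mul_smul]; exact heq
    rw [← hfe, smul_left_cancel k h1]
  have h1 := hk g hg
  have h2 := hk h hh
  have h3 : (k * h) • x ∈ connectedComponentIn (fc f (k • x))ᶜ ((k * g) • x) :=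
    mem_comp_trans (mem_comp_symm h1) h2
  rw [mul_smul, mul_smul] at h3
  exact (smul_mem_comp hfe k).1 h3

/-- **No equivariant map.** -/
theorem no_equivariant_map [Nontrivial G] [Nonempty X]
    (hlift : ∀ φ : C(X, Circle), ∃ θ : C(X, ℝ), ∀ x, φ x = Circle.exp (θ x))
    (hY : ∀ (y : Y) (U : Set Y), IsOpen U → y ∈ U → ∃ O : Set Y, IsOpen O ∧ y ∈ O ∧ O ⊆ U ∧
      IsTotallyDisconnected (frontier O))
    (hf : Continuous f)
    (hfe : ∀ (g : G) (x : X), f (g • x) = g • f x)
    (hfree : ∀ (g : G) (y : Y), g • y = y → g = 1) : False := by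
  classical
  obtain ⟨g₀, hg₀⟩ := exists_ne (1 : G)
  have hside : ∀ (x : X) (g h : G), g ≠ 1 → h ≠ 1 →
      h • x ∈ connectedComponentIn (fc f x)ᶜ (g • x) :=
    fun x g h hg hh => translates_one_side hf hfe hfree x hg hh
  have hnfc : ∀ (x : X) (g : G), g ≠ 1 → g • x ∉ fc f x := by
    intro x g hg h
    apply hg
    apply hfree g (f x)
    rw [← hfe]
    exact fc_sub f x _ h
  let Dp : X → Set X := fun x => connectedComponentIn (fc f x)ᶜ (g₀ • x)
  have hDp : ∀ (x : X) (g : G), g ≠ 1 → Dp x = connectedComponentIn (fc f x)ᶜ (g • x) := by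
    intro x g hg
    exact connectedComponentIn_eq (hside x g₀ g hg₀ hg)
  let R : X → Set X := fun x => Dp x ∪ fc f x
  have hRc : ∀ x, IsClosed (R x) := fun x => isClosed_comp_union (fc_closed hf x) _
  have hRp : ∀ x, IsPreconnected (R x) := fun x =>
    isPreconnected_comp_union (fc_closed hf x) (fc_conn f x) ⟨x, mem_fc f x⟩ _
  have hRmem : ∀ (x : X) (g : G), g • x ∈ R x := by
    intro x g
    by_cases hg : g = 1
    · rw [hg, one_smul]
      exact Or.inr (mem_fc f x)
    · left
      exact hside x g₀ g hg₀ hg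
  have hDsub : ∀ x, Dp x ⊆ (fc f x)ᶜ := fun x => connectedComponentIn_subset _ _
  -- key fact
  have T1 : ∀ x x' : X, x' ∉ R x → R x ⊆ Dp x' := by
    intro x x' hx'
    have hx'fc : x' ∉ fc f x := fun h => hx' (Or.inr h)
    have hdis : R x ⊆ (fc f x')ᶜ := by
      rintro w (hw | hw) hw'
      · apply hx'
        left
        have hsub : fc f x' ⊆ (fc f x)ᶜ := fun v hv => fc_disj hx'fc hv
        exact subset_comp_of_meets (fc_conn f x') hsub hw' hw (mem_fc f x')
      · exact fc_disj hx'fc hw' hw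
    have hxR : x ∈ R x := Or.inr (mem_fc f x)
    have hRsub : R x ⊆ connectedComponentIn (fc f x')ᶜ x :=
      (hRp x).subset_connectedComponentIn hxR hdis
    have hxD : x ∈ Dp x' := by
      by_contra hcon
      -- the component of x, together with fc x', misses fc (g₀ • x')
      have hg0x' : g₀ • x' ∉ fc f x' := hnfc x' g₀ hg₀
      have hR' : IsPreconnected (connectedComponentIn (fc f x')ᶜ x ∪ fc f x') :=
        isPreconnected_comp_union (fc_closed hf x') (fc_conn f x') ⟨x', mem_fc f x'⟩ _
      have hmiss : connectedComponentIn (fc f x')ᶜ x ∪ fc f x' ⊆ (fc f (g₀ • x'))ᶜ := by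
        rintro w (hw | hw) hw'
        · have hsub : fc f (g₀ • x') ⊆ (fc f x')ᶜ := fun v hv => fc_disj hg0x' hv
          have h1 : g₀ • x' ∈ connectedComponentIn (fc f x')ᶜ x :=
            subset_comp_of_meets (fc_conn f _) hsub hw' hw (mem_fc f _)
          exact hcon (mem_comp_symm h1)
        · exact fc_disj hg0x' hw' hw
      have h2 : x ∈ connectedComponentIn (fc f (g₀ • x'))ᶜ x' :=
        hR'.subset_connectedComponentIn (Or.inr (mem_fc f x')) hmiss
          (Or.inl (mem_connectedComponentIn (hdis hxR)))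
      have h3 : g₀⁻¹ • x ∈ connectedComponentIn (fc f x')ᶜ (g₀⁻¹ • x') := by
        have := (smul_mem_comp hfe g₀ (x := x') (y := g₀⁻¹ • x') (z := g₀⁻¹ • x))
        rw [smul_inv_smul, smul_inv_smul] at this
        exact this.1 h2
      rw [← hDp x' g₀⁻¹ (inv_ne_one.2 hg₀)] at h3
      have h4 : g₀⁻¹ • x ∈ connectedComponentIn (fc f x')ᶜ x := hRsub (hRmem x g₀⁻¹)
      exact hcon (mem_comp_trans h3 (mem_comp_symm h4))
    intro w hw
    exact mem_comp_trans hxD (hRsub hw)
  -- finite intersection property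
  have hfin : ∀ t : Finset X, t.Nonempty → ∃ i ∈ t, ∀ j ∈ t, i ∈ R j := by
    intro t ht
    induction t using Finset.induction_on with
    | empty => exact absurd ht (by simp)
    | insert a t hat ih =>
      rcases t.eq_empty_or_nonempty with h0 | h0
      · subst h0
        refine ⟨a, by simp, ?_⟩
        intro j hj
        have : j = a := by simpa using hj
        rw [this]
        exact Or.inr (mem_fc f a)
      · obtain ⟨i, hit, hi⟩ := ih h0
        by_cases hia : i ∈ R a
        · refine ⟨i, Finset.mem_insert_of_mem hit, ?_⟩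
          intro j hj
          rcases Finset.mem_insert.1 hj with rfl | hj
          · exact hia
          · exact hi j hj
        · refine ⟨a, Finset.mem_insert_self _ _, ?_⟩
          intro j hj
          rcases Finset.mem_insert.1 hj with rfl | hj
          · exact Or.inr (mem_fc f _)
          · by_contra haj
            exact hia (Or.inl (T1 j a haj (hi j hj)))
  obtain ⟨s, hs⟩ : (⋂ x, R x).Nonempty := by
    have := (isCompact_univ (X := X)).inter_iInter_nonempty R hRc (by
      intro t
      rcases t.eq_empty_or_nonempty with h0 | h0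
      · subst h0
        simp
      · obtain ⟨i, -, hi⟩ := hfin t h0
        exact ⟨i, trivial, by simpa using hi⟩)
    simpa using this
  rw [mem_iInter] at hs
  have hgs : ∀ x, g₀ • s ∈ R x := by
    intro x
    have h1 := hs (g₀⁻¹ • x)
    rcases h1 with h1 | h1
    · left
      have h2 : s ∈ connectedComponentIn (fc f (g₀⁻¹ • x))ᶜ (g₀ • (g₀⁻¹ • x)) := h1
      have h3 := (smul_mem_comp hfe g₀ (x := g₀⁻¹ • x) (y := g₀ • (g₀⁻¹ • x)) (z := s)).2 h2
      rw [smul_inv_smul] at h3
      exact h3
    · right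
      have h3 := (smul_mem_fc hfe g₀ (x := g₀⁻¹ • x) (z := s)).2 h1
      rwa [smul_inv_smul] at h3
  obtain ⟨c, hc1, hc2, hc3⟩ := exists_sep hlift hY hf (hnfc s g₀ hg₀)
  have h1 : s ∈ Dp c := (hs c).resolve_right hc1
  have h2 : g₀ • s ∈ Dp c := (hgs c).resolve_right hc2
  exact hc3 (mem_comp_trans (mem_comp_symm h1) h2)

end Equiv

end Pool.Agent.Helper87.AG
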