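import Pool.Agent.Helper87.AG.Defs

/-! The one-dimensional Menger compacta have a base of open sets with totally disconnected
boundaries. -/

set_option autoImplicit false

namespace Pool.Agent.Helper87.AG

open Set Topology

/-- an open interval longer than `3^-l` contains a point with prescribed fractional part of
`3^l x` -/
theorem exists_frac {s t : ℝ} {l : ℕ} (h : 1 / (3:ℝ) ^ l < t - s) {d : ℝ} (_hd0 : 0 ≤ d)
    (_hd1 : d < 1) : ∃ r : ℝ, s < r ∧ r < t ∧ ∃ m : ℤ, (3:ℝ) ^ l * r = m + d := by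
  have h3 : (0:ℝ) < 3 ^ l := by positivity
  set m : ℤ := ⌊3 ^ l * s - d⌋ + 1 with hm
  have h1 : 3 ^ l * s - d < m := by
    rw [hm]; push_cast
    exact Int.lt_floor_add_one _
  have h2 : (m:ℝ) ≤ 3 ^ l * s - d + 1 := by
    rw [hm]; push_cast
    linarith [Int.floor_le (3 ^ l * s - d)]
  have h4 : 1 < 3 ^ l * (t - s) := by
    rw [div_lt_iff₀ h3] at h
    linarith
  refine ⟨(m + d) / 3 ^ l, ?_, ?_, m, ?_⟩
  · rw [lt_div_iff₀ h3]; linarith
  · rw [div_lt_iff₀ h3]; linarith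
  · field_simp

theorem fract_half {c : ℝ} {J l : ℕ} (hJl : J ≤ l) {m : ℤ} (h : (3:ℝ) ^ J * c = m + 1/2) :
    Int.fract ((3:ℝ) ^ l * c) = 1/2 := by
  obtain ⟨k, rfl⟩ := Nat.exists_eq_add_of_le hJl
  have hodd : Odd (3 ^ k) := Odd.pow (by decide)
  obtain ⟨q, hq⟩ := hodd
  have h1 : (3:ℝ) ^ (J + k) * c = ((3 ^ k * m + q : ℤ) : ℝ) + 1/2 := by
    have h2 : (3:ℝ) ^ (J + k) * c = 3 ^ k * (3 ^ J * c) := by ring
    rw [h2, h]
    have h3 : (3:ℝ) ^ k = 2 * q + 1 := by exact_mod_cast hq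
    push_cast
    rw [h3]
    ring
  rw [h1, Int.fract_intCast_add, Int.fract_eq_self]
  norm_num

theorem menger_one_boundary {ι : Type} [Fintype ι] (y : Menger ι 1) (U : Set (Menger ι 1))
    (hU : IsOpen U) (hy : y ∈ U) :
    ∃ O : Set (Menger ι 1), IsOpen O ∧ y ∈ O ∧ O ⊆ U ∧ IsTotallyDisconnected (frontier O) := by
  classical
  obtain ⟨ε, hε, hball⟩ := Metric.isOpen_iff.1 hU y hy
  obtain ⟨J, hJ⟩ : ∃ J : ℕ, 1 / (3:ℝ) ^ J < ε := by
    obtain ⟨J, hJ⟩ := exists_pow_lt_of_lt_one hε (by norm_num : (1/3:ℝ) < 1)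
    refine ⟨J, ?_⟩
    rw [one_div_pow] at hJ
    exact hJ
  have ha : ∀ i, ∃ r : ℝ, y.1 i - ε < r ∧ r < y.1 i ∧ ∃ m : ℤ, (3:ℝ) ^ J * r = m + 1/2 :=
    fun i => exists_frac (by linarith) (by norm_num) (by norm_num)
  have hb : ∀ i, ∃ r : ℝ, y.1 i < r ∧ r < y.1 i + ε ∧ ∃ m : ℤ, (3:ℝ) ^ J * r = m + 1/2 :=
    fun i => exists_frac (by linarith) (by norm_num) (by norm_num)
  choose a ha1 ha2 ha3 using ha
  choose b hb1 hb2 hb3 using hb
  have hcoord : ∀ i, Continuous fun z : Menger ι 1 => z.1 i := fun i =>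
    (continuous_apply i).comp continuous_subtype_val
  let O : Set (Menger ι 1) := ⋂ i, {z : Menger ι 1 | a i < z.1 i ∧ z.1 i < b i}
  have hOo : IsOpen O := by
    apply isOpen_iInter_of_finite
    intro i
    exact (isOpen_lt continuous_const (hcoord i)).inter (isOpen_lt (hcoord i) continuous_const)
  have hfr : ∀ z ∈ frontier O, ∃ i, z.1 i = a i ∨ z.1 i = b i := by
    intro z hz
    rw [hOo.frontier_eq] at hz
    obtain ⟨hz1, hz2⟩ := hz
    simp only [O, mem_iInter, mem_ofPred_eq, not_forall] at hz2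
    obtain ⟨i, hi⟩ := hz2
    refine ⟨i, ?_⟩
    have hcl : closure O ⊆ {z : Menger ι 1 | a i ≤ z.1 i ∧ z.1 i ≤ b i} := by
      apply closure_minimal
      · intro w hw
        have := mem_iInter.1 hw i
        exact ⟨this.1.le, this.2.le⟩
      · exact (isClosed_le continuous_const (hcoord i)).inter
          (isClosed_le (hcoord i) continuous_const)
    obtain ⟨h1, h2⟩ := hcl hz1
    by_contra hcon
    push Not at hcon
    exact hi ⟨lt_of_le_of_ne h1 (Ne.symm hcon.1), lt_of_le_of_ne h2 hcon.2⟩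
  refine ⟨O, hOo, ?_, ?_, ?_⟩
  · rw [mem_iInter]
    exact fun i => ⟨ha2 i, hb1 i⟩
  · intro z hz
    apply hball
    rw [Metric.mem_ball, Subtype.dist_eq, dist_pi_lt_iff hε]
    intro i
    obtain ⟨h1, h2⟩ := mem_iInter.1 hz i
    rw [Real.dist_eq, abs_lt]
    constructor
    · linarith [ha1 i]
    · linarith [hb2 i]
  · intro T hTf hT
    have key : ∀ z ∈ T, ∀ z' ∈ T, ∀ i', ¬ (z.1 i' < z'.1 i') := by
      intro z hz z' hz' i' hlt
      obtain ⟨l, hJl, hl⟩ : ∃ l : ℕ, J ≤ l ∧ 1 / (3:ℝ) ^ l < z'.1 i' - z.1 i' := by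
        obtain ⟨l, hl⟩ := exists_pow_lt_of_lt_one (sub_pos.2 hlt) (by norm_num : (1/3:ℝ) < 1)
        refine ⟨max J l, le_max_left _ _, ?_⟩
        rw [one_div_pow] at hl
        refine lt_of_le_of_lt ?_ hl
        apply one_div_le_one_div_of_le (by positivity)
        exact pow_le_pow_right₀ (by norm_num) (le_max_right _ _)
      obtain ⟨r, hr1, hr2, m, hm⟩ := exists_frac (d := 2/5) hl (by norm_num) (by norm_num)
      obtain ⟨w, hwT, hwr⟩ := hT.intermediate_value hz hz' (hcoord i').continuousOn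
        ⟨hr1.le, hr2.le⟩
      have hwr' : w.1 i' = r := hwr
      have hfr' : Int.fract ((3:ℝ) ^ l * w.1 i') = 2/5 := by
        rw [hwr', hm, Int.fract_intCast_add, Int.fract_eq_self]
        norm_num
      obtain ⟨i, hi⟩ := hfr w (hTf hwT)
      have hc : Int.fract ((3:ℝ) ^ l * w.1 i) = 1/2 := by
        rcases hi with hi | hi
        · rw [hi]
          obtain ⟨n, hn⟩ := ha3 i
          exact fract_half hJl hn
        · rw [hi]
          obtain ⟨n, hn⟩ := hb3 i
          exact fract_half hJl hn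
      have hne : i ≠ i' := by
        rintro rfl
        rw [hc] at hfr'
        norm_num at hfr'
      have hcard := w.2.2 l
      have hsub : ({i, i'} : Set ι) ⊆ {i | 1/3 < Int.fract ((3:ℝ) ^ l * w.1 i) ∧
          Int.fract ((3:ℝ) ^ l * w.1 i) < 2/3} := by
        rintro x (rfl | hx)
        · constructor <;> rw [hc] <;> norm_num
        · rw [mem_singleton_iff] at hx
          subst hx
          constructor <;> rw [hfr'] <;> norm_num
      have h2 := ncard_le_ncard hsub (toFinite _)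
      rw [ncard_pair hne] at h2
      omega
    intro z hz z' hz'
    apply Subtype.ext
    funext i'
    exact le_antisymm (not_lt.1 (key z' hz' z hz i')) (not_lt.1 (key z hz z' hz' i'))

end Pool.Agent.Helper87.AG
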