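import Pool.Agent.Helper87.AG.Defs

/-!
# The standard Menger compactum is a union of small copies of itself

Basics: the maps `phi w`, admissible digit vectors, compactness, connectedness of the faces,
connectedness and local connectedness.
-/

set_option autoImplicit false

namespace Pool.Agent.Helper87.AG

open Set Filter Topology

variable {ι : Type} {k : ℕ}

/-- the contraction onto the subcube with digit vector `w` -/
noncomputable def phi (w : ι → Fin 3) (x : ι → ℝ) : ι → ℝ := fun i => (x i + ((w i : ℕ) : ℝ)) / 3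

/-- admissible digit vectors: at most `k` digits `1` -/
def Adm (k : ℕ) (w : ι → Fin 3) : Prop := {i | w i = 1}.ncard ≤ k

/-- digits of a point -/
noncomputable def dig (x : ι → ℝ) : ι → Fin 3 :=
  fun i => if x i ≤ 1 / 3 then 0 else if x i < 2 / 3 then 1 else 2

/-- the rest of a point after removing the digits -/
noncomputable def rest (x : ι → ℝ) : ι → ℝ := fun i => 3 * x i - ((dig x i : ℕ) : ℝ)

theorem phi_apply (w : ι → Fin 3) (x : ι → ℝ) (i : ι) :
    phi w x i = (x i + ((w i : ℕ) : ℝ)) / 3 := rfl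

theorem phi_dig_rest (x : ι → ℝ) : phi (dig x) (rest x) = x := by
  funext i
  simp only [phi, rest]
  ring

theorem fract_phi (w : ι → Fin 3) (x : ι → ℝ) (i : ι) (j : ℕ) :
    Int.fract ((3:ℝ) ^ (j + 1) * phi w x i) = Int.fract ((3:ℝ) ^ j * x i) := by
  have h : (3:ℝ) ^ (j + 1) * phi w x i = (3:ℝ) ^ j * x i + ((3 ^ j * (w i : ℕ) : ℕ) : ℝ) := by
    rw [phi_apply]
    push_cast
    ring
  rw [h, Int.fract_add_natCast]

theorem phi_mem_Icc {w : ι → Fin 3} {x : ι → ℝ} (i : ι) (hx : x i ∈ Icc (0:ℝ) 1) :
    phi w x i ∈ Icc (0:ℝ) 1 := by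
  have h1 : ((w i : ℕ) : ℝ) ≤ 2 := by
    have : (w i : ℕ) ≤ 2 := by omega
    exact_mod_cast this
  have h0 : (0:ℝ) ≤ ((w i : ℕ) : ℝ) := Nat.cast_nonneg _
  obtain ⟨h2, h3⟩ := hx
  rw [phi_apply]
  constructor
  · positivity
  · linarith

/-- if the digit is not `1` the point is not in the middle third -/
theorem not_mid_phi {w : ι → Fin 3} {x : ι → ℝ} (i : ι) (hx : x i ∈ Icc (0:ℝ) 1) (hw : w i ≠ 1) :
    ¬ (1/3 < Int.fract (phi w x i) ∧ Int.fract (phi w x i) < 2/3) := by
  obtain ⟨h2, h3⟩ := hx
  rintro ⟨h4, h5⟩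
  have h6 : w i = 0 ∨ w i = 2 := by
    have : (w i : ℕ) < 3 := (w i).isLt
    have h1 : (w i : ℕ) ≠ 1 := fun h => hw (Fin.ext h)
    rcases (show (w i : ℕ) = 0 ∨ (w i : ℕ) = 2 by omega) with h | h
    · left; exact Fin.ext h
    · right; exact Fin.ext h
  rw [phi_apply] at h4 h5
  rcases h6 with h6 | h6
  · rw [h6] at h4 h5
    simp only [Fin.val_zero, Nat.cast_zero, add_zero] at h4 h5
    have h7 : Int.fract (x i / 3) = x i / 3 := Int.fract_eq_self.mpr ⟨by positivity, by linarith⟩
    rw [h7] at h4
    linarith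
  · rw [h6] at h4 h5
    have h8 : (((2 : Fin 3) : ℕ) : ℝ) = 2 := by norm_num
    rw [h8] at h4 h5
    rcases eq_or_lt_of_le h3 with h9 | h9
    · rw [h9] at h4
      norm_num at h4
    · have h7 : Int.fract ((x i + 2) / 3) = (x i + 2) / 3 :=
        Int.fract_eq_self.mpr ⟨by positivity, by linarith⟩
      rw [h7] at h5
      linarith

theorem phi_mem [Finite ι] {w : ι → Fin 3} (hw : Adm k w) {x : ι → ℝ} (hx : x ∈ Menger ι k) :
    phi w x ∈ Menger ι k := by
  refine ⟨fun i => phi_mem_Icc i (hx.1 i), fun j => ?_⟩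
  rcases j with _ | j
  · refine le_trans (ncard_le_ncard ?_ (toFinite _)) hw
    intro i hi
    simp only [mem_ofPred_eq, pow_zero, one_mul] at hi
    by_contra hne
    exact not_mid_phi i (hx.1 i) hne hi
  · have h : {i | 1/3 < Int.fract ((3:ℝ) ^ (j + 1) * phi w x i) ∧
        Int.fract ((3:ℝ) ^ (j + 1) * phi w x i) < 2/3} =
        {i | 1/3 < Int.fract ((3:ℝ) ^ j * x i) ∧ Int.fract ((3:ℝ) ^ j * x i) < 2/3} := by
      ext i
      simp only [mem_ofPred_eq, fract_phi]
    rw [h]
    exact hx.2 j

theorem dig_eq_zero {x : ι → ℝ} {i : ι} (h : x i ≤ 1 / 3) : dig x i = 0 := by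
  simp only [dig, if_pos h]

theorem dig_eq_one {x : ι → ℝ} {i : ι} (h : 1 / 3 < x i) (h2 : x i < 2 / 3) : dig x i = 1 := by
  simp only [dig, if_neg (not_le.mpr h), if_pos h2]

theorem dig_eq_two {x : ι → ℝ} {i : ι} (h : 2 / 3 ≤ x i) : dig x i = 2 := by
  have h1 : ¬ (x i ≤ 1 / 3) := by
    intro h3
    linarith
  simp only [dig, if_neg h1, if_neg (not_lt.mpr h)]

theorem dig_one {x : ι → ℝ} {i : ι} (h : dig x i = 1) : 1 / 3 < x i ∧ x i < 2 / 3 := by
  by_cases h1 : x i ≤ 1 / 3
  · rw [dig_eq_zero h1] at h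
    exact absurd h (by decide)
  · by_cases h2 : x i < 2 / 3
    · exact ⟨not_le.mp h1, h2⟩
    · rw [dig_eq_two (not_lt.mp h2)] at h
      exact absurd h (by decide)

theorem rest_mem_Icc {x : ι → ℝ} (i : ι) (hx : x i ∈ Icc (0:ℝ) 1) : rest x i ∈ Icc (0:ℝ) 1 := by
  obtain ⟨h0, h1⟩ := hx
  simp only [rest]
  by_cases h : x i ≤ 1 / 3
  · rw [dig_eq_zero h]
    simp only [Fin.val_zero, Nat.cast_zero, sub_zero]
    constructor <;> linarith
  · by_cases h2 : x i < 2 / 3
    · rw [dig_eq_one (not_le.mp h) h2]
      simp only [Fin.val_one, Nat.cast_one]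
      constructor <;> linarith [not_le.mp h]
    · rw [dig_eq_two (not_lt.mp h2)]
      have h8 : (((2 : Fin 3) : ℕ) : ℝ) = 2 := by norm_num
      rw [h8]
      constructor <;> linarith [not_lt.mp h2]

theorem fract_rest (x : ι → ℝ) (i : ι) (j : ℕ) :
    Int.fract ((3:ℝ) ^ j * rest x i) = Int.fract ((3:ℝ) ^ (j + 1) * x i) := by
  rw [← fract_phi (dig x) (rest x) i j, phi_dig_rest]

theorem rest_mem {x : ι → ℝ} (hx : x ∈ Menger ι k) : rest x ∈ Menger ι k := by
  refine ⟨fun i => rest_mem_Icc i (hx.1 i), fun j => ?_⟩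
  have h : {i | 1/3 < Int.fract ((3:ℝ) ^ j * rest x i) ∧
      Int.fract ((3:ℝ) ^ j * rest x i) < 2/3} =
      {i | 1/3 < Int.fract ((3:ℝ) ^ (j + 1) * x i) ∧
        Int.fract ((3:ℝ) ^ (j + 1) * x i) < 2/3} := by
    ext i
    simp only [mem_ofPred_eq, fract_rest]
  rw [h]
  exact hx.2 (j + 1)

theorem adm_dig [Finite ι] {x : ι → ℝ} (hx : x ∈ Menger ι k) : Adm k (dig x) := by
  refine le_trans (ncard_le_ncard ?_ (toFinite _)) (hx.2 0)
  intro i hi
  obtain ⟨h1, h2⟩ := dig_one hi
  have h3 : Int.fract (x i) = x i := Int.fract_eq_self.mpr ⟨by linarith, by linarith⟩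
  simp only [mem_ofPred_eq, pow_zero, one_mul, h3]
  exact ⟨h1, h2⟩

theorem vertex_mem {x : ι → ℝ} (hx : ∀ i, x i = 0 ∨ x i = 1) : x ∈ Menger ι k := by
  refine ⟨fun i => ?_, fun j => ?_⟩
  · rcases hx i with h | h <;> rw [h] <;> constructor <;> norm_num
  · have h : {i | 1/3 < Int.fract ((3:ℝ) ^ j * x i) ∧
        Int.fract ((3:ℝ) ^ j * x i) < 2/3} = ∅ := by
      rw [eq_empty_iff_forall_notMem]
      rintro i ⟨h1, _⟩
      have h2 : Int.fract ((3:ℝ) ^ j * x i) = 0 := by
        rcases hx i with h | h
        · rw [h, mul_zero, Int.fract_zero]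
        · rw [h, mul_one]
          have : (3:ℝ) ^ j = ((3 ^ j : ℕ) : ℝ) := by push_cast; rfl
          rw [this, Int.fract_natCast]
      rw [h2] at h1
      linarith
    rw [h, ncard_empty]
    exact Nat.zero_le _

theorem continuous_phi (w : ι → Fin 3) : Continuous (phi w) := by
  unfold phi
  fun_prop

/-! ## Compactness -/

theorem isOpen_mid : IsOpen {t : ℝ | 1/3 < Int.fract t ∧ Int.fract t < 2/3} := by
  have h : {t : ℝ | 1/3 < Int.fract t ∧ Int.fract t < 2/3} =
      ⋃ n : ℤ, Ioo ((n : ℝ) + 1/3) ((n : ℝ) + 2/3) := by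
    ext t
    simp only [mem_ofPred_eq, mem_iUnion, mem_Ioo]
    constructor
    · rintro ⟨h1, h2⟩
      refine ⟨⌊t⌋, ?_, ?_⟩ <;> have := Int.floor_add_fract t <;> linarith
    · rintro ⟨n, h1, h2⟩
      have h3 : Int.fract t = t - n := by
        rw [Int.fract_eq_iff]
        exact ⟨by linarith, by linarith, n, by ring⟩
      rw [h3]
      constructor <;> linarith
  rw [h]
  exact isOpen_iUnion fun n => isOpen_Ioo

theorem isClosed_menger [Finite ι] (k : ℕ) : IsClosed (Menger ι k) := by
  have h : Menger ι k = (⋂ i, {x : ι → ℝ | x i ∈ Icc (0:ℝ) 1}) ∩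
      ⋂ j : ℕ, {x : ι → ℝ | {i | 1/3 < Int.fract ((3:ℝ) ^ j * x i) ∧
        Int.fract ((3:ℝ) ^ j * x i) < 2/3}.ncard ≤ k} := by
    ext x
    simp only [Menger, mem_inter_iff, mem_iInter, mem_ofPred_eq]
  rw [h]
  refine IsClosed.inter (isClosed_iInter fun i => isClosed_Icc.preimage (continuous_apply i))
    (isClosed_iInter fun j => ?_)
  rw [← isOpen_compl_iff, isOpen_iff_mem_nhds]
  intro x hx
  simp only [mem_compl_iff, mem_ofPred_eq, not_le] at hx
  have h1 : ∀ i, ∀ᶠ y in 𝓝 x, (1/3 < Int.fract ((3:ℝ) ^ j * x i) ∧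
      Int.fract ((3:ℝ) ^ j * x i) < 2/3) → (1/3 < Int.fract ((3:ℝ) ^ j * y i) ∧
      Int.fract ((3:ℝ) ^ j * y i) < 2/3) := by
    intro i
    by_cases hi : (1/3 < Int.fract ((3:ℝ) ^ j * x i) ∧ Int.fract ((3:ℝ) ^ j * x i) < 2/3)
    · have hc : Continuous fun y : ι → ℝ => (3:ℝ) ^ j * y i := by fun_prop
      have := (isOpen_mid.preimage hc).mem_nhds (x := x) hi
      filter_upwards [this] with y hy _ using hy
    · exact Eventually.of_forall fun y h => absurd h hi
  filter_upwards [eventually_all.mpr h1] with y hy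
  simp only [mem_compl_iff, mem_ofPred_eq, not_le]
  exact lt_of_lt_of_le hx (ncard_le_ncard (fun i hi => hy i hi) (toFinite _))

theorem menger_isCompact [Fintype ι] (k : ℕ) : IsCompact (Menger ι k) := by
  refine (isCompact_univ_pi (s := fun _ : ι => Icc (0:ℝ) 1) fun _ => isCompact_Icc).of_isClosed_subset
    (isClosed_menger k) ?_
  intro x hx i _
  exact hx.1 i

/-! ## Combinatorial gluing along admissible digit vectors -/

theorem glue [Finite ι] [DecidableEq ι] {α : Type*} (hk : 1 ≤ k) (S : Finset ι) (b : ι → Fin 3)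
    (hb : ∀ i, i ∉ S → b i = 0) (hb1 : ∀ i, b i ≠ 1) (C : (ι → Fin 3) → α)
    (hC : ∀ w i, w i = 1 → Adm k w → (∀ l ∈ S, w l = b l) → ∀ e, e ≠ 1 →
      C w = C (Function.update w i e)) :
    ∀ w, Adm k w → (∀ l ∈ S, w l = b l) → C w = C b := by
  have key : ∀ n : ℕ, ∀ w : ι → Fin 3, {i | w i ≠ b i}.ncard = n → Adm k w →
      (∀ l ∈ S, w l = b l) → C w = C b := by
    intro n
    induction n with
    | zero =>
      intro w hn _ _
      rw [ncard_eq_zero (toFinite _)] at hn
      have : w = b := by
        funext i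
        by_contra h
        have : i ∈ ({i | w i ≠ b i} : Set ι) := h
        rw [hn] at this
        exact this
      rw [this]
    | succ n ih =>
      intro w hn hw hS
      -- reduction of one digit to `0`
      have step : ∀ i, w i ≠ b i → C w = C (Function.update w i 0) → C w = C b := by
        intro i hi hCi
        have hiS : i ∉ S := fun h => hi (hS i h)
        have hbi : b i = 0 := hb i hiS
        rw [hCi]
        have hset : {l | Function.update w i 0 l ≠ b l} = {l | w l ≠ b l} \ {i} := by
          ext l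
          simp only [mem_ofPred_eq, Set.mem_sdiff, mem_singleton_iff]
          by_cases hl : l = i
          · subst hl
            simp [hbi]
          · rw [Function.update_of_ne hl]
            simp [hl]
        have hones : {l | Function.update w i 0 l = 1} ⊆ {l | w l = 1} := by
          intro l hl
          simp only [mem_ofPred_eq] at hl ⊢
          by_cases hli : l = i
          · subst hli
            simp at hl
          · rwa [Function.update_of_ne hli] at hl
        refine ih _ ?_ (le_trans (ncard_le_ncard hones (toFinite _)) hw) ?_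
        · rw [hset, ncard_sdiff_singleton_of_mem (show i ∈ {l | w l ≠ b l} from hi), hn]
          rfl
        · intro l hl
          have : l ≠ i := fun h => hiS (h ▸ hl)
          rw [Function.update_of_ne this]
          exact hS l hl
      by_cases h1 : ∃ i, w i = 1
      · obtain ⟨i, hi⟩ := h1
        refine step i ?_ (hC w i hi hw hS 0 (by decide))
        rw [hi]
        exact fun h => hb1 i h.symm
      · push Not at h1
        have hne : ({i | w i ≠ b i} : Set ι).Nonempty := by
          rw [← ncard_pos (toFinite _), hn]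
          exact Nat.succ_pos n
        obtain ⟨i, hi⟩ := hne
        have hiS : i ∉ S := fun h => hi (hS i h)
        have hbi : b i = 0 := hb i hiS
        have hw2 : w i ≠ 1 := h1 i
        refine step i hi ?_
        -- pass through digit `1`
        have hadm : Adm k (Function.update w i 1) := by
          have : {l | Function.update w i 1 l = 1} ⊆ {i} := by
            intro l hl
            simp only [mem_ofPred_eq] at hl
            by_contra hli
            rw [Function.update_of_ne (by simpa using hli)] at hl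
            exact h1 l hl
          refine le_trans (ncard_le_ncard this (toFinite _)) ?_
          rw [ncard_singleton]
          exact hk
        have hS' : ∀ l ∈ S, Function.update w i 1 l = b l := by
          intro l hl
          have : l ≠ i := fun h => hiS (h ▸ hl)
          rw [Function.update_of_ne this]
          exact hS l hl
        have e1 := hC (Function.update w i 1) i (Function.update_self _ _ _) hadm hS' (w i) hw2
        have e2 := hC (Function.update w i 1) i (Function.update_self _ _ _) hadm hS' 0 (by decide)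
        rw [Function.update_idem, Function.update_eq_self] at e1
        rw [Function.update_idem] at e2
        rw [← e1, ← e2]
  intro w hw hS
  exact key _ w rfl hw hS

/-! ## Connectedness -/

/-- the face of the Menger compactum with prescribed coordinates `a` on `S` -/
def Face (k : ℕ) (S : Finset ι) (a : ι → ℝ) : Set (ι → ℝ) := {x | x ∈ Menger ι k ∧ ∀ i ∈ S, x i = a i}

theorem phi_mem_face [Finite ι] {S : Finset ι} {a : ι → ℝ} {w : ι → Fin 3} (hw : Adm k w)
    (hwa : ∀ i ∈ S, ((w i : ℕ) : ℝ) = 2 * a i) {x : ι → ℝ} (hx : x ∈ Face k S a) :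
    phi w x ∈ Face k S a := by
  refine ⟨phi_mem hw hx.1, fun i hi => ?_⟩
  rw [phi_apply, hx.2 i hi, hwa i hi]
  ring

theorem dig_face {S : Finset ι} {a : ι → ℝ} (ha : ∀ i ∈ S, a i = 0 ∨ a i = 1)
    {x : ι → ℝ} (hx : x ∈ Face k S a) : ∀ i ∈ S, ((dig x i : ℕ) : ℝ) = 2 * a i := by
  intro i hi
  have h1 := hx.2 i hi
  rcases ha i hi with h | h
  · rw [dig_eq_zero (by rw [h1, h]; norm_num), h]
    simp
  · rw [dig_eq_two (by rw [h1, h]; norm_num), h]
    norm_num

theorem rest_mem_face {S : Finset ι} {a : ι → ℝ} (ha : ∀ i ∈ S, a i = 0 ∨ a i = 1)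
    {x : ι → ℝ} (hx : x ∈ Face k S a) : rest x ∈ Face k S a := by
  refine ⟨rest_mem hx.1, fun i hi => ?_⟩
  have h1 := dig_face ha hx i hi
  simp only [rest]
  rw [h1, hx.2 i hi]
  ring

theorem dist_phi [Fintype ι] (w : ι → Fin 3) (x y : ι → ℝ) :
    dist (phi w x) (phi w y) ≤ dist x y / 3 := by
  rw [dist_pi_le_iff (by positivity)]
  intro i
  rw [phi_apply, phi_apply, Real.dist_eq]
  have h : (x i + ((w i : ℕ) : ℝ)) / 3 - (y i + ((w i : ℕ) : ℝ)) / 3 = (x i - y i) / 3 := by ring
  rw [h, abs_div, abs_of_pos (show (0:ℝ) < 3 by norm_num), ← Real.dist_eq]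
  exact div_le_div_of_nonneg_right (dist_le_pi_dist x y i) (by norm_num)

theorem dist_le_one [Fintype ι] {x y : ι → ℝ} (hx : x ∈ Menger ι k) (hy : y ∈ Menger ι k) :
    dist x y ≤ 1 := by
  rw [dist_pi_le_iff (by norm_num)]
  intro i
  rw [Real.dist_eq, abs_le]
  have h1 := hx.1 i
  have h2 := hy.1 i
  constructor <;> linarith [h1.1, h1.2, h2.1, h2.2]

theorem face_chain [Fintype ι] [DecidableEq ι] (hk : 1 ≤ k) (S : Finset ι) (a : ι → ℝ)
    (ha : ∀ i ∈ S, a i = 0 ∨ a i = 1) {α : Type*} (m : ℕ) :
    ∀ c : (ι → ℝ) → α, (∀ x ∈ Face k S a, ∀ y ∈ Face k S a, dist x y ≤ (1/3) ^ m → c x = c y) →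
      ∀ x ∈ Face k S a, ∀ y ∈ Face k S a, c x = c y := by
  induction m with
  | zero =>
    intro c hc x hx y hy
    exact hc x hx y hy (by simpa using dist_le_one hx.1 hy.1)
  | succ m ih =>
    intro c hc
    -- the base vertex and the base digit vector
    let v : ι → ℝ := fun i => if i ∈ S then a i else 0
    let b : ι → Fin 3 := fun i => if i ∈ S then (if a i = 0 then 0 else 2) else 0
    have hvert : ∀ i, v i = 0 ∨ v i = 1 := by
      intro i
      by_cases hi : i ∈ S
      · simp only [v, if_pos hi]; exact ha i hi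
      · simp [v, hi]
    have hv : v ∈ Face k S a := ⟨vertex_mem hvert, fun i hi => by simp [v, hi]⟩
    have hbS : ∀ i ∈ S, ((b i : ℕ) : ℝ) = 2 * a i := by
      intro i hi
      simp only [b, if_pos hi]
      rcases ha i hi with h | h
      · rw [if_pos h, h]; simp
      · rw [if_neg (by rw [h]; norm_num), h]; norm_num
    have hcompat : ∀ w : ι → Fin 3, (∀ l ∈ S, w l = b l) → ∀ i ∈ S, ((w i : ℕ) : ℝ) = 2 * a i := by
      intro w hw i hi
      rw [hw i hi]
      exact hbS i hi
    have hcompat' : ∀ w : ι → Fin 3, (∀ i ∈ S, ((w i : ℕ) : ℝ) = 2 * a i) → ∀ l ∈ S, w l = b l := by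
      intro w hw i hi
      have h1 := hw i hi
      rw [← hbS i hi] at h1
      exact Fin.ext (by exact_mod_cast h1)
    -- `c ∘ phi w` is constant on the face
    have hconst : ∀ w, Adm k w → (∀ l ∈ S, w l = b l) → ∀ x ∈ Face k S a, ∀ y ∈ Face k S a,
        c (phi w x) = c (phi w y) := by
      intro w hw hwS x hx y hy
      refine ih (fun z => c (phi w z)) ?_ x hx y hy
      intro x hx y hy hxy
      refine hc _ (phi_mem_face hw (hcompat w hwS) hx) _ (phi_mem_face hw (hcompat w hwS) hy) ?_
      refine (dist_phi w x y).trans ?_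
      rw [pow_succ]
      linarith
    have hglue := glue (k := k) hk S b (fun i hi => by simp [b, hi])
      (fun i => by
        by_cases hi : i ∈ S
        · simp only [b, if_pos hi]
          split_ifs <;> decide
        · simp only [b, if_neg hi]; decide)
      (fun w => c (phi w v)) (by
        intro w i hwi hw hwS e he
        have hiS : i ∉ S := by
          intro hi
          have h1 := hcompat w hwS i hi
          rw [hwi] at h1
          rcases ha i hi with h | h <;> rw [h] at h1 <;> norm_num at h1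
        -- the point `x` of the face with the coordinate `i` changed
        have hupd_mem : ∀ t : ℝ, t = 0 ∨ t = 1 → Function.update v i t ∈ Face k S a := by
          intro t ht
          refine ⟨vertex_mem fun l => ?_, fun l hl => ?_⟩
          · by_cases hl : l = i
            · subst hl; rw [Function.update_self]; exact ht
            · rw [Function.update_of_ne hl]; exact hvert l
          · have : l ≠ i := fun h => hiS (h ▸ hl)
            rw [Function.update_of_ne this]
            exact hv.2 l hl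
        have hwadm' : Adm k (Function.update w i e) := by
          refine le_trans (ncard_le_ncard ?_ (toFinite _)) hw
          intro l hl
          simp only [mem_ofPred_eq] at hl ⊢
          by_cases hli : l = i
          · subst hli
            rw [Function.update_self] at hl
            exact absurd hl he
          · rwa [Function.update_of_ne hli] at hl
        have hwS' : ∀ l ∈ S, Function.update w i e l = b l := by
          intro l hl
          have : l ≠ i := fun h => hiS (h ▸ hl)
          rw [Function.update_of_ne this]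
          exact hwS l hl
        have he' : e = 0 ∨ e = 2 := by
          have : (e : ℕ) < 3 := e.isLt
          have h1 : (e : ℕ) ≠ 1 := fun h => he (Fin.ext h)
          rcases (show (e : ℕ) = 0 ∨ (e : ℕ) = 2 by omega) with h | h
          · left; exact Fin.ext h
          · right; exact Fin.ext h
        -- common point
        have hpt : ∃ s t : ℝ, (s = 0 ∨ s = 1) ∧ (t = 0 ∨ t = 1) ∧
            phi w (Function.update v i s) = phi (Function.update w i e) (Function.update v i t) := by
          rcases he' with he0 | he2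
          · refine ⟨0, 1, Or.inl rfl, Or.inr rfl, ?_⟩
            funext l
            simp only [phi_apply]
            by_cases hl : l = i
            · subst hl
              simp only [Function.update_self, hwi, he0]
              norm_num
            · simp only [Function.update_of_ne hl]
          · refine ⟨1, 0, Or.inr rfl, Or.inl rfl, ?_⟩
            funext l
            simp only [phi_apply]
            by_cases hl : l = i
            · subst hl
              simp only [Function.update_self, hwi, he2]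
              norm_num
            · simp only [Function.update_of_ne hl]
        obtain ⟨s, t, hs, ht, hst⟩ := hpt
        calc c (phi w v) = c (phi w (Function.update v i s)) :=
              hconst w hw hwS v hv _ (hupd_mem s hs)
          _ = c (phi (Function.update w i e) (Function.update v i t)) := by rw [hst]
          _ = c (phi (Function.update w i e) v) :=
              hconst _ hwadm' hwS' _ (hupd_mem t ht) v hv)
    have hall : ∀ x ∈ Face k S a, c x = c (phi b v) := by
      intro x hx
      have h1 := dig_face ha hx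
      have h2 := adm_dig hx.1
      have h3 := hcompat' _ h1
      calc c x = c (phi (dig x) (rest x)) := by rw [phi_dig_rest]
        _ = c (phi (dig x) v) := hconst _ h2 h3 _ (rest_mem_face ha hx) v hv
        _ = c (phi b v) := hglue _ h2 h3
    intro x hx y hy
    rw [hall x hx, hall y hy]

theorem menger_face_isPreconnected [Fintype ι] [DecidableEq ι] (hk : 1 ≤ k) (S : Finset ι)
    (a : ι → ℝ) (ha : ∀ i ∈ S, a i = 0 ∨ a i = 1) :
    IsPreconnected {x | x ∈ Menger ι k ∧ ∀ i ∈ S, x i = a i} := by
  refine isPreconnected_of_forall_constant fun f hf x hx y hy => ?_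
  have hcomp : IsCompact (Face k S a) := by
    refine (menger_isCompact k).of_isClosed_subset ?_ (fun x hx => hx.1)
    have : Face k S a = Menger ι k ∩ ⋂ i ∈ S, {x : ι → ℝ | x i = a i} := by
      ext x; simp [Face]
    rw [this]
    exact (isClosed_menger k).inter
      (isClosed_biInter fun i _ => isClosed_eq (continuous_apply i) continuous_const)
  let g : (ι → ℝ) → ℝ := fun x => if f x then 1 else 0
  have hg : ContinuousOn g (Face k S a) := by
    have h1 : Continuous (fun t : Bool => if t then (1:ℝ) else 0) := continuous_of_discreteTopology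
    exact h1.comp_continuousOn hf
  have hu := hcomp.uniformContinuousOn_of_continuous hg
  rw [Metric.uniformContinuousOn_iff] at hu
  obtain ⟨δ, hδ, hu⟩ := hu 1 one_pos
  obtain ⟨m, hm⟩ := exists_pow_lt_of_lt_one hδ (show (1/3 : ℝ) < 1 by norm_num)
  refine face_chain hk S a ha m f (fun x hx y hy hxy => ?_) x hx y hy
  have h1 := hu x hx y hy (lt_of_le_of_lt hxy hm)
  by_contra hne
  rw [Real.dist_eq] at h1
  simp only [g] at h1
  cases hfx : f x <;> cases hfy : f y <;> simp_all

theorem menger_isPreconnected [Fintype ι] [DecidableEq ι] (hk : 1 ≤ k) :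
    IsPreconnected (Menger ι k) := by
  have h := menger_face_isPreconnected (ι := ι) hk ∅ (fun _ => 0) (by simp)
  simpa using h

theorem menger_connected [Fintype ι] [DecidableEq ι] (hk : 1 ≤ k) :
    ConnectedSpace (Menger ι k) := by
  rw [← isConnected_iff_connectedSpace]
  exact ⟨⟨fun _ => 0, vertex_mem fun _ => Or.inl rfl⟩, menger_isPreconnected hk⟩

/-! ## Local connectedness -/

/-- the cells of level `n` -/
def Cells (ι : Type) (k : ℕ) : ℕ → Set (Set (ι → ℝ))
  | 0 => {Menger ι k}
  | n + 1 => {A | ∃ w : ι → Fin 3, Adm k w ∧ ∃ B ∈ Cells ι k n, A = phi w '' B}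

theorem cells_finite [Finite ι] (n : ℕ) : (Cells ι k n).Finite := by
  induction n with
  | zero => exact finite_singleton _
  | succ n ih =>
    have : Cells ι k (n + 1) ⊆ ⋃ w : ι → Fin 3, (fun B => phi w '' B) '' Cells ι k n := by
      rintro A ⟨w, _, B, hB, rfl⟩
      exact mem_iUnion.mpr ⟨w, B, hB, rfl⟩
    exact (finite_iUnion fun w => ih.image _).subset this

theorem cells_isPreconnected [Fintype ι] [DecidableEq ι] (hk : 1 ≤ k) (n : ℕ) :
    ∀ A ∈ Cells ι k n, IsPreconnected A := by
  induction n with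
  | zero =>
    intro A hA
    rw [show A = Menger ι k from hA]
    exact menger_isPreconnected hk
  | succ n ih =>
    rintro A ⟨w, _, B, hB, rfl⟩
    exact (ih B hB).image _ (continuous_phi w).continuousOn

theorem cells_isCompact [Fintype ι] (n : ℕ) : ∀ A ∈ Cells ι k n, IsCompact A := by
  induction n with
  | zero =>
    intro A hA
    rw [show A = Menger ι k from hA]
    exact menger_isCompact k
  | succ n ih =>
    rintro A ⟨w, _, B, hB, rfl⟩
    exact (ih B hB).image (continuous_phi w)

theorem cells_subset [Finite ι] (n : ℕ) : ∀ A ∈ Cells ι k n, A ⊆ Menger ι k := by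
  induction n with
  | zero =>
    intro A hA
    rw [show A = Menger ι k from hA]
  | succ n ih =>
    rintro A ⟨w, hw, B, hB, rfl⟩
    rintro _ ⟨x, hx, rfl⟩
    exact phi_mem hw (ih B hB hx)

theorem cells_cover [Finite ι] (n : ℕ) : ∀ x ∈ Menger ι k, ∃ A ∈ Cells ι k n, x ∈ A := by
  induction n with
  | zero => exact fun x hx => ⟨_, rfl, hx⟩
  | succ n ih =>
    intro x hx
    obtain ⟨B, hB, hxB⟩ := ih (rest x) (rest_mem hx)
    exact ⟨phi (dig x) '' B, ⟨dig x, adm_dig hx, B, hB, rfl⟩, rest x, hxB, phi_dig_rest x⟩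

theorem cells_dist [Fintype ι] (n : ℕ) : ∀ A ∈ Cells ι k n, ∀ x ∈ A, ∀ y ∈ A,
    dist x y ≤ (1/3) ^ n := by
  induction n with
  | zero =>
    intro A hA x hx y hy
    rw [show A = Menger ι k from hA] at hx hy
    simpa using dist_le_one hx hy
  | succ n ih =>
    rintro A ⟨w, _, B, hB, rfl⟩
    rintro _ ⟨x, hx, rfl⟩ _ ⟨y, hy, rfl⟩
    refine (dist_phi w x y).trans ?_
    rw [pow_succ]
    linarith [ih B hB x hx y hy]

/-- the star of `x` at level `n` -/
def Star (k n : ℕ) (x : ι → ℝ) : Set (ι → ℝ) := ⋃₀ {A | A ∈ Cells ι k n ∧ x ∈ A}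

theorem star_isPreconnected [Fintype ι] [DecidableEq ι] (hk : 1 ≤ k) (n : ℕ) (x : ι → ℝ) :
    IsPreconnected (Star k n x) :=
  isPreconnected_sUnion x _ (fun _ hA => hA.2) (fun A hA => cells_isPreconnected hk n A hA.1)

theorem star_mem_nhdsWithin [Fintype ι] (n : ℕ) (x : ι → ℝ) :
    Star k n x ∈ 𝓝[Menger ι k] x := by
  have hfin : {A | A ∈ Cells ι k n ∧ x ∉ A}.Finite := (cells_finite n).subset fun A hA => hA.1
  have hclosed : IsClosed (⋃₀ {A | A ∈ Cells ι k n ∧ x ∉ A}) := by
    rw [sUnion_eq_biUnion]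
    exact hfin.isClosed_biUnion fun A hA => (cells_isCompact n A hA.1).isClosed
  have hx : x ∈ (⋃₀ {A | A ∈ Cells ι k n ∧ x ∉ A})ᶜ := by
    rintro ⟨A, hA, hxA⟩
    exact hA.2 hxA
  rw [mem_nhdsWithin]
  refine ⟨_, hclosed.isOpen_compl, hx, ?_⟩
  rintro y ⟨hy1, hy2⟩
  obtain ⟨A, hA, hyA⟩ := cells_cover n y hy2
  refine ⟨A, ⟨hA, ?_⟩, hyA⟩
  by_contra hxA
  exact hy1 ⟨A, ⟨hA, hxA⟩, hyA⟩

theorem star_dist [Fintype ι] (n : ℕ) (x y : ι → ℝ) (hy : y ∈ Star k n x) :
    dist y x ≤ (1/3) ^ n := by
  obtain ⟨A, hA, hyA⟩ := hy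
  exact cells_dist n A hA.1 y hyA x hA.2

theorem star_subset [Finite ι] (n : ℕ) (x : ι → ℝ) : Star k n x ⊆ Menger ι k := by
  rintro y ⟨A, hA, hyA⟩
  exact cells_subset n A hA.1 hyA

theorem menger_locallyConnected [Fintype ι] [DecidableEq ι] (hk : 1 ≤ k) :
    LocallyConnectedSpace (Menger ι k) := by
  refine locallyConnectedSpace_of_connected_bases
    (fun (x : Menger ι k) (n : ℕ) => (Subtype.val ⁻¹' Star k n (x : ι → ℝ) : Set (Menger ι k)))
    (fun _ _ => True) ?_ ?_
  · intro x
    rw [hasBasis_iff]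
    intro t
    constructor
    · intro ht
      obtain ⟨ε, hε, ht⟩ := Metric.mem_nhds_iff.mp ht
      obtain ⟨n, hn⟩ := exists_pow_lt_of_lt_one hε (show (1/3 : ℝ) < 1 by norm_num)
      refine ⟨n, trivial, fun y hy => ht ?_⟩
      rw [Metric.mem_ball, Subtype.dist_eq]
      exact lt_of_le_of_lt (star_dist n _ _ hy) hn
    · rintro ⟨n, _, hn⟩
      refine mem_of_superset ?_ hn
      rw [nhds_subtype_eq_comap_nhdsWithin]
      exact preimage_mem_comap (star_mem_nhdsWithin n (x : ι → ℝ))
  · intro x n _
    rw [← Topology.IsInducing.subtypeVal.isPreconnected_image, Subtype.image_preimage_coe,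
      inter_eq_right.mpr (star_subset n _)]
    exact star_isPreconnected hk n _

end Pool.Agent.Helper87.AG
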