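import Mathlib

/-! Menger compacta (the standard models used in the problem) and the statements we need. -/

set_option autoImplicit false

namespace Pool.Agent.Helper87.AG

open Set

/-- The standard model: points of the cube `[0,1]^ι` such that at every level at most `k`
coordinates are strictly inside the middle third. -/
def Menger (ι : Type) (k : ℕ) : Set (ι → ℝ) :=
  {x | (∀ i, x i ∈ Set.Icc (0:ℝ) 1) ∧
    ∀ j : ℕ, {i | 1/3 < Int.fract ((3:ℝ) ^ j * x i) ∧
      Int.fract ((3:ℝ) ^ j * x i) < 2/3}.ncard ≤ k}

end Pool.Agent.Helper87.AG
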