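import Mathlib
import Pool.Agent.Helper87.AG.Defs
import Pool.Agent.Helper87.AG.Conn

set_option autoImplicit false

namespace Pool.Agent.Helper87.AG

open Set

namespace LiftAux

variable {ι : Type} [Fintype ι] [DecidableEq ι]

/-- number of ones of a digit vector -/
def ones (w : ι → Fin 3) : ℕ := (Finset.univ.filter (fun i => w i = 1)).card

omit [DecidableEq ι] in
theorem ones_eq_ncard (w : ι → Fin 3) : ones w = {i | w i = 1}.ncard := by
  classical
  unfold ones
  rw [Set.ncard_eq_toFinset_card']
  congr 1
  ext i; simp

theorem ones_update_lt (w : ι → Fin 3) (i : ι) (e : Fin 3) (hw : w i = 1) (he : e ≠ 1) :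
    ones (Function.update w i e) < ones w := by
  unfold ones
  apply Finset.card_lt_card
  rw [Finset.ssubset_iff_of_subset]
  · refine ⟨i, by simp [hw], by simp [he]⟩
  · intro j hj
    simp only [Finset.mem_filter, Finset.mem_univ, true_and] at hj ⊢
    by_cases h : j = i
    · subst h; simp at hj; exact absurd hj he
    · rwa [Function.update_of_ne h] at hj

theorem ones_update_le (w : ι → Fin 3) (i : ι) (e : Fin 3) :
    ones (Function.update w i e) ≤ ones w + 1 := by
  unfold ones
  have : (Finset.univ.filter (fun j => Function.update w i e j = 1)) ⊆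
      insert i (Finset.univ.filter (fun j => w j = 1)) := by
    intro j hj
    simp only [Finset.mem_filter, Finset.mem_univ, true_and, Finset.mem_insert] at hj ⊢
    by_cases h : j = i
    · exact Or.inl h
    · rw [Function.update_of_ne h] at hj; exact Or.inr hj
  exact (Finset.card_le_card this).trans (Finset.card_insert_le _ _)

/-- The combinatorial lemma. -/
theorem cocycle {k : ℕ} (hk : 2 ≤ k) (n : (ι → Fin 3) → ι → Fin 3 → ℤ)
    (hn : ∀ w : ι → Fin 3, ones w ≤ k → ∀ i l : ι, i ≠ l → w i = 1 → w l = 1 →
      ∀ e e' : Fin 3, e ≠ 1 → e' ≠ 1 →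
      n w i e + n (Function.update w i e) l e' = n w l e' + n (Function.update w l e') i e)
    (T : Finset ι) :
    ∃ h : (ι → Fin 3) → ℤ, ∀ w : ι → Fin 3, ones w ≤ k → (∀ i, i ∉ T → w i = 0) →
      ∀ i, w i = 1 → ∀ e : Fin 3, e ≠ 1 → n w i e = h w - h (Function.update w i e) := by
  induction T using Finset.induction_on with
  | empty =>
    refine ⟨fun _ => 0, fun w _ hw i hi => ?_⟩
    rw [hw i (by simp)] at hi
    exact absurd hi (by decide)
  | insert i0 T hi0 ih =>
    obtain ⟨h, hh⟩ := ih
    classical
    let h1 : (ι → Fin 3) → ℤ := fun w => h (Function.update w i0 0) + n w i0 0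
    let h2 : (ι → Fin 3) → ℤ := fun w => h1 (Function.update w i0 1) - n (Function.update w i0 1) i0 2
    let h3 : (ι → Fin 3) → ℤ := fun w => if hl : ∃ l, w l = 1 then
      h2 (Function.update w hl.choose 0) + n w hl.choose 0 else 0
    let h' : (ι → Fin 3) → ℤ := fun w => if w i0 = 0 then h w else if w i0 = 1 then h1 w
      else if ones w < k then h2 w else h3 w
    have E0 : ∀ w : ι → Fin 3, w i0 = 0 → h' w = h w := by
      intro w hw; simp only [h', if_pos hw]
    have E1 : ∀ w : ι → Fin 3, w i0 = 1 → h' w = h1 w := by
      intro w hw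
      have : ¬ (w i0 = 0) := by rw [hw]; decide
      simp only [h', if_neg this, if_pos hw]
    have E2 : ∀ w : ι → Fin 3, w i0 = 2 → ones w < k → h' w = h2 w := by
      intro w hw hk
      have a1 : ¬ (w i0 = 0) := by rw [hw]; decide
      have a2 : ¬ (w i0 = 1) := by rw [hw]; decide
      simp only [h', if_neg a1, if_neg a2, if_pos hk]
    have E3 : ∀ w : ι → Fin 3, w i0 = 2 → ¬ (ones w < k) → h' w = h3 w := by
      intro w hw hk
      have a1 : ¬ (w i0 = 0) := by rw [hw]; decide
      have a2 : ¬ (w i0 = 1) := by rw [hw]; decide
      simp only [h', if_neg a1, if_neg a2, if_neg hk]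
    -- case B with i ≠ i0
    have B : ∀ w : ι → Fin 3, ones w ≤ k → (∀ i, i ∉ insert i0 T → w i = 0) → w i0 = 1 →
        ∀ i, i ≠ i0 → w i = 1 → ∀ e : Fin 3, e ≠ 1 →
        n w i e = h1 w - h1 (Function.update w i e) := by
      intro w hw hT hw0 i hi hwi e he
      have h1k : ones (Function.update w i0 0) ≤ k :=
        ((ones_update_lt w i0 0 hw0 (by decide)).le).trans hw
      have hT' : ∀ j, j ∉ T → Function.update w i0 0 j = 0 := by
        intro j hj
        by_cases hj0 : j = i0
        · subst hj0; simp
        · rw [Function.update_of_ne hj0]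
          exact hT j (by simp [hj0, hj])
      have hwi' : Function.update w i0 0 i = 1 := by rw [Function.update_of_ne hi]; exact hwi
      have key := hh _ h1k hT' i hwi' e he
      have sq := hn w hw i0 i (Ne.symm hi) hw0 hwi 0 e (by decide) he
      have comm : Function.update (Function.update w i0 0) i e =
          Function.update (Function.update w i e) i0 0 := Function.update_comm (Ne.symm hi) _ _ _
      simp only [h1]
      rw [comm] at key
      linarith
    have C : ∀ w : ι → Fin 3, ones w < k → (∀ i, i ∉ insert i0 T → w i = 0) → w i0 = 2 →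
        ∀ i, w i = 1 → ∀ e : Fin 3, e ≠ 1 →
        n w i e = h2 w - h2 (Function.update w i e) := by
      intro w hw hT hw0 i hwi e he
      have hi : i ≠ i0 := by
        rintro rfl; rw [hw0] at hwi; exact absurd hwi (by decide)
      set u := Function.update w i0 1 with hu
      have hu0 : u i0 = 1 := by simp [hu]
      have hui : u i = 1 := by rw [hu, Function.update_of_ne hi]; exact hwi
      have huk : ones u ≤ k := (ones_update_le w i0 1).trans hw
      have huT : ∀ j, j ∉ insert i0 T → u j = 0 := by
        intro j hj
        have : j ≠ i0 := by rintro rfl; simp at hj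
        rw [hu, Function.update_of_ne this]; exact hT j hj
      have b := B u huk huT hu0 i hi hui e he
      have sq := hn u huk i i0 hi hui hu0 e 2 he (by decide)
      have c1 : Function.update u i0 2 = w := by
        rw [hu]; simp [← hw0]
      have c2 : Function.update (Function.update w i e) i0 1 = Function.update u i e := by
        rw [hu]; exact Function.update_comm hi _ _ _
      simp only [h2]
      rw [c2, ← hu]
      rw [c1] at sq
      linarith
    refine ⟨h', fun w hw hT i hwi e he => ?_⟩
    have h3case : w i0 = 0 ∨ w i0 = 1 ∨ w i0 = 2 := by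
      generalize w i0 = z
      fin_cases z <;> simp
    rcases h3case with hw0 | hw0 | hw0
    · have hi : i ≠ i0 := by
        rintro rfl; rw [hw0] at hwi; exact absurd hwi (by decide)
      rw [E0 w hw0, E0 _ (by rw [Function.update_of_ne (Ne.symm hi)]; exact hw0)]
      refine hh w hw (fun j hj => ?_) i hwi e he
      by_cases hj0 : j = i0
      · rw [hj0]; exact hw0
      · exact hT j (by simp [hj0, hj])
    · by_cases hi : i = i0
      · subst hi
        have he' : e = 0 ∨ e = 2 := by
          revert he; fin_cases e <;> simp
        rcases he' with rfl | rfl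
        · rw [E1 w hw0, E0 _ (by simp)]
          simp only [h1]; ring
        · rw [E1 w hw0, E2 _ (by simp) (lt_of_lt_of_le (ones_update_lt w i 2 hw0 (by decide)) hw)]
          simp only [h2]
          have : Function.update (Function.update w i 2) i 1 = w := by
            simp [← hw0]
          rw [this]; ring
      · rw [E1 w hw0, E1 _ (by rw [Function.update_of_ne (Ne.symm hi)]; exact hw0)]
        exact B w hw hT hw0 i hi hwi e he
    · have hi : i ≠ i0 := by
        rintro rfl; rw [hw0] at hwi; exact absurd hwi (by decide)
      have hup : Function.update w i e i0 = 2 := by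
        rw [Function.update_of_ne (Ne.symm hi)]; exact hw0
      have hlt : ones (Function.update w i e) < k :=
        lt_of_lt_of_le (ones_update_lt w i e hwi he) hw
      by_cases hwk : ones w < k
      · rw [E2 w hw0 hwk, E2 _ hup hlt]
        exact C w hwk hT hw0 i hwi e he
      · rw [E3 w hw0 hwk, E2 _ hup hlt]
        -- well-definedness
        have D1 : ∀ i l : ι, i ≠ l → w i = 1 → w l = 1 → ∀ e e' : Fin 3, e ≠ 1 → e' ≠ 1 →
            h2 (Function.update w i e) + n w i e = h2 (Function.update w l e') + n w l e' := by
          intro i l hil hwi hwl e e' he he'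
          have hi : i0 ≠ i := by
            rintro rfl; rw [hw0] at hwi; exact absurd hwi (by decide)
          have hl : i0 ≠ l := by
            rintro rfl; rw [hw0] at hwl; exact absurd hwl (by decide)
          have hsupp : ∀ (i : ι) (e : Fin 3), w i = 1 →
              ∀ j, j ∉ insert i0 T → Function.update w i e j = 0 := by
            intro i e hwi j hj
            have : j ≠ i := by
              rintro rfl
              rw [hT j hj] at hwi; exact absurd hwi (by decide)
            rw [Function.update_of_ne this]; exact hT j hj
          have c1 := C (Function.update w i e)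
            (lt_of_lt_of_le (ones_update_lt w i e hwi he) hw) (hsupp i e hwi)
            (by rw [Function.update_of_ne hi]; exact hw0) l
            (by rw [Function.update_of_ne (Ne.symm hil)]; exact hwl) e' he'
          have c2 := C (Function.update w l e')
            (lt_of_lt_of_le (ones_update_lt w l e' hwl he') hw) (hsupp l e' hwl)
            (by rw [Function.update_of_ne hl]; exact hw0) i
            (by rw [Function.update_of_ne hil]; exact hwi) e he
          have sq := hn w hw i l hil hwi hwl e e' he he'
          have comm : Function.update (Function.update w i e) l e' =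
            Function.update (Function.update w l e') i e := Function.update_comm hil _ _ _
          rw [comm] at c1
          linarith
        have D : ∀ i l : ι, w i = 1 → w l = 1 → ∀ e e' : Fin 3, e ≠ 1 → e' ≠ 1 →
            h2 (Function.update w i e) + n w i e = h2 (Function.update w l e') + n w l e' := by
          intro i l hwi hwl e e' he he'
          by_cases hil : i = l
          · subst hil
            have h2c : 2 ≤ ones w := hk.trans (not_lt.mp hwk)
            obtain ⟨q, hq, hqi⟩ : ∃ q, w q = 1 ∧ q ≠ i := by
              have : 1 < (Finset.univ.filter (fun i => w i = 1)).card := h2c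
              obtain ⟨q, hq, hqi⟩ := Finset.exists_mem_ne this i
              exact ⟨q, by simpa using hq, hqi⟩
            rw [D1 i q (Ne.symm hqi) hwi hq e 0 he (by decide),
              D1 i q (Ne.symm hqi) hwi hq e' 0 he' (by decide)]
          · exact D1 i l hil hwi hwl e e' he he'
        have hl : ∃ l, w l = 1 := ⟨i, hwi⟩
        have := D hl.choose i hl.choose_spec hwi 0 e (by decide) he
        simp only [h3, dif_pos hl]
        linarith

/-! ### geometry -/

/-- The similarity with digit vector `w`. -/
noncomputable def sim (w : ι → Fin 3) (x : ι → ℝ) : ι → ℝ := fun i => (x i + ((w i : ℕ) : ℝ)) / 3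

omit [DecidableEq ι] in
theorem sim_mem {k : ℕ} {w : ι → Fin 3} (hw : ones w ≤ k) {x : ι → ℝ} (hx : x ∈ Menger ι k) :
    sim w x ∈ Menger ι k := by
  refine ⟨fun i => ?_, fun j => ?_⟩
  · have h := hx.1 i
    have h2 : ((w i : ℕ) : ℝ) ≤ 2 := by
      have : (w i : ℕ) ≤ 2 := by omega
      exact_mod_cast this
    have h0 : (0:ℝ) ≤ ((w i : ℕ) : ℝ) := Nat.cast_nonneg _
    constructor
    · simp only [sim]; linarith [h.1]
    · simp only [sim]; linarith [h.2]
  · cases j with
    | zero =>
      rw [ones_eq_ncard] at hw
      refine (Set.ncard_le_ncard ?_ (Set.toFinite _)).trans hw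
      intro i hi
      simp only [Set.mem_ofPred_eq, pow_zero, one_mul, sim] at hi ⊢
      have h := hx.1 i
      have h3 : w i = 0 ∨ w i = 1 ∨ w i = 2 := by
        generalize w i = z
        fin_cases z <;> simp
      rcases h3 with h3 | h3 | h3
      · exfalso
        rw [h3] at hi
        have h0 : Int.fract ((x i + (((0 : Fin 3) : ℕ) : ℝ)) / 3) = x i / 3 := by
          rw [Int.fract_eq_iff]
          refine ⟨by linarith [h.1], by linarith [h.2], 0, by simp⟩
        rw [h0] at hi
        linarith [h.2, hi.1]
      · exact h3
      · exfalso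
        rw [h3] at hi
        by_cases hx1 : x i = 1
        · rw [hx1] at hi
          have h0 : ((1:ℝ) + (((2 : Fin 3) : ℕ) : ℝ)) / 3 = 1 := by
            simp; norm_num
          rw [h0, Int.fract_one] at hi
          linarith [hi.1]
        · have h0 : Int.fract ((x i + (((2 : Fin 3) : ℕ) : ℝ)) / 3) = (x i + 2) / 3 := by
            rw [Int.fract_eq_iff]
            refine ⟨by linarith [h.1], ?_, 0, by simp⟩
            have := lt_of_le_of_ne h.2 hx1
            linarith
          rw [h0] at hi
          linarith [h.1, hi.2]
    | succ j =>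
      refine le_trans (le_of_eq ?_) (hx.2 j)
      congr 1
      ext i
      simp only [Set.mem_ofPred_eq, sim]
      have : (3:ℝ) ^ (j+1) * ((x i + ((w i : ℕ) : ℝ)) / 3) =
          (3:ℝ)^j * x i + ((3 ^ j * (w i : ℕ) : ℕ) : ℝ) := by
        push_cast; ring
      rw [this, Int.fract_add_natCast]

/-- the canonical digit vector -/
noncomputable def dig (y : ι → ℝ) : ι → Fin 3 := fun i =>
  if y i ≤ 1/3 then 0 else if y i < 2/3 then 1 else 2

omit [DecidableEq ι] in
theorem dig_ones {k : ℕ} {y : ι → ℝ} (hy : y ∈ Menger ι k) : ones (dig y) ≤ k := by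
  rw [ones_eq_ncard]
  refine (Set.ncard_le_ncard ?_ (Set.toFinite _)).trans (hy.2 0)
  intro i hi
  simp only [Set.mem_ofPred_eq, dig, pow_zero, one_mul] at hi ⊢
  by_cases h1 : y i ≤ 1/3
  · rw [if_pos h1] at hi; exact absurd hi (by decide)
  · rw [if_neg h1] at hi
    by_cases h2 : y i < 2/3
    · have : Int.fract (y i) = y i := by
        rw [Int.fract_eq_self]; constructor <;> linarith
      rw [this]; exact ⟨not_le.mp h1, h2⟩
    · rw [if_neg h2] at hi; exact absurd hi (by decide)

omit [Fintype ι] [DecidableEq ι] in
theorem sim_surj {k : ℕ} {y : ι → ℝ} (hy : y ∈ Menger ι k) :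
    (fun i => 3 * y i - ((dig y i : ℕ) : ℝ)) ∈ Menger ι k ∧
      sim (dig y) (fun i => 3 * y i - ((dig y i : ℕ) : ℝ)) = y := by
  refine ⟨⟨fun i => ?_, fun j => ?_⟩, ?_⟩
  · have h := hy.1 i
    simp only [dig]
    by_cases h1 : y i ≤ 1/3
    · rw [if_pos h1]
      constructor <;> simp <;> linarith [h.1]
    · rw [if_neg h1]
      by_cases h2 : y i < 2/3
      · rw [if_pos h2]
        constructor <;> simp <;> linarith
      · rw [if_neg h2]
        constructor <;> simp <;> linarith [h.2]
  · refine le_trans (le_of_eq ?_) (hy.2 (j+1))
    congr 1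
    ext i
    simp only [Set.mem_ofPred_eq]
    have : (3:ℝ) ^ (j+1) * y i =
        (3:ℝ)^j * (3 * y i - ((dig y i : ℕ) : ℝ)) + ((3 ^ j * (dig y i : ℕ) : ℕ) : ℝ) := by
      push_cast; ring
    rw [this, Int.fract_add_natCast]
  · ext i; simp only [sim]; ring

/-- replace a coordinate by 0 or 1 -/
theorem update_mem {k : ℕ} {x : ι → ℝ} (hx : x ∈ Menger ι k) (i : ι) {b : ℝ}
    (hb : b = 0 ∨ b = 1) : Function.update x i b ∈ Menger ι k := by
  refine ⟨fun j => ?_, fun j => ?_⟩
  · by_cases h : j = i
    · subst h; simp only [Function.update_self]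
      rcases hb with rfl | rfl <;> constructor <;> norm_num
    · rw [Function.update_of_ne h]; exact hx.1 j
  · refine (Set.ncard_le_ncard ?_ (Set.toFinite _)).trans (hx.2 j)
    intro l hl
    simp only [Set.mem_ofPred_eq] at hl ⊢
    by_cases h : l = i
    · subst h
      exfalso
      rw [Function.update_self] at hl
      have h0 : Int.fract ((3:ℝ)^j * b) = 0 := by
        rcases hb with rfl | rfl
        · simp
        · have : (3:ℝ)^j * 1 = ((3^j : ℕ) : ℝ) := by push_cast; ring
          rw [this]; exact Int.fract_natCast _
      rw [h0] at hl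
      linarith [hl.1]
    · rw [Function.update_of_ne h] at hl; exact hl

/-- the end point belonging to a digit -/
noncomputable def ept (e : Fin 3) : ℝ := if e = 2 then 1 else 0

omit [Fintype ι] in
theorem sim_update {w : ι → Fin 3} {i : ι} {e : Fin 3} (hw : w i = 1) (he : e ≠ 1)
    {x : ι → ℝ} (hx : x i = ept e) :
    sim (Function.update w i e) (Function.update x i (1 - ept e)) = sim w x := by
  ext j
  simp only [sim]
  by_cases h : j = i
  · subst h
    simp only [Function.update_self, hw, hx]
    have he' : e = 0 ∨ e = 2 := by
      revert he; fin_cases e <;> simp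
    rcases he' with rfl | rfl
    · simp [ept]
    · simp only [ept, if_true]; norm_num
  · rw [Function.update_of_ne h, Function.update_of_ne h]

theorem ept_cases (e : Fin 3) : ept e = 0 ∨ ept e = 1 := by
  unfold ept; split <;> simp

theorem one_sub_ept_cases (e : Fin 3) : 1 - ept e = 0 ∨ 1 - ept e = 1 := by
  unfold ept; split <;> simp


/-! ### lifts -/

/-- the similarity as a map of the compactum -/
noncomputable def simC {k : ℕ} (w : ι → Fin 3) (hw : ones w ≤ k) : C(Menger ι k, Menger ι k) where
  toFun x := ⟨sim w x.1, sim_mem hw x.2⟩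
  continuous_toFun := by
    refine Continuous.subtype_mk ?_ _
    refine continuous_pi fun i => ?_
    have : Continuous fun x : Menger ι k => x.1 i := (continuous_apply i).comp continuous_subtype_val
    exact (this.add continuous_const).div_const 3

/-- update as a map of the compactum -/
noncomputable def updC {k : ℕ} (i : ι) (b : ℝ) (hb : b = 0 ∨ b = 1) : C(Menger ι k, Menger ι k) where
  toFun x := ⟨Function.update x.1 i b, update_mem x.2 i hb⟩
  continuous_toFun := by
    refine Continuous.subtype_mk ?_ _
    exact continuous_subtype_val.update i continuous_const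

theorem face_pre {k : ℕ} (hk : 1 ≤ k) (i : ι) (b : ℝ) (hb : b = 0 ∨ b = 1) :
    IsPreconnected {x : Menger ι k | x.1 i = b} := by
  have h := menger_face_isPreconnected (ι := ι) hk {i} (fun _ => b) (by simpa using hb)
  rw [← Topology.IsInducing.subtypeVal.isPreconnected_image]
  convert h using 1
  ext x
  simp only [Set.mem_image, Set.mem_ofPred_eq, Subtype.exists, exists_and_left, exists_prop,
    Finset.mem_singleton, forall_eq]
  constructor
  · rintro ⟨y, hy1, hy2, rfl⟩
    exact ⟨hy2, hy1⟩
  · rintro ⟨h1, h2⟩
    exact ⟨x, h2, h1, rfl⟩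

/-- an integer valued continuous function on a preconnected set is constant -/
theorem const_of_int {X : Type*} [TopologicalSpace X] {F : Set X} (hF : IsPreconnected F)
    (g : X → ℝ) (hg : ContinuousOn g F) (hint : ∀ x ∈ F, ∃ n : ℤ, g x = n)
    {x y : X} (hx : x ∈ F) (hy : y ∈ F) : g x = g y := by
  by_contra hne
  wlog hlt : g x < g y generalizing x y with H
  · exact H hy hx (Ne.symm hne) (lt_of_le_of_ne (not_lt.mp hlt) (Ne.symm hne))
  obtain ⟨a, ha⟩ := hint x hx
  obtain ⟨b, hb⟩ := hint y hy
  have hab : a < b := by rw [ha, hb] at hlt; exact_mod_cast hlt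
  have hab' : a + 1 ≤ b := hab
  have hab'' : (a:ℝ) + 1 ≤ b := by exact_mod_cast hab'
  have := hF.intermediate_value hx hy hg (show (a:ℝ) + 1/2 ∈ Set.Icc (g x) (g y) by
    rw [ha, hb]; constructor <;> linarith)
  obtain ⟨z, hz, hgz⟩ := this
  obtain ⟨c, hc⟩ := hint z hz
  rw [hc] at hgz
  have h1 : (a:ℝ) < c := by rw [hgz]; linarith
  have h2 : (c:ℝ) < a + 1 := by rw [hgz]; linarith
  have h1' : a < c := by exact_mod_cast h1
  have h2' : c < a + 1 := by exact_mod_cast h2
  omega

theorem step {k : ℕ} (hk : 2 ≤ k) (f : C(Menger ι k, Circle))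
    (hf : ∀ (w : ι → Fin 3) (hw : ones w ≤ k), ∃ t : C(Menger ι k, ℝ),
      ∀ x, f (simC w hw x) = Circle.exp (t x)) :
    ∃ t : C(Menger ι k, ℝ), ∀ x, f x = Circle.exp (t x) := by
  classical
  choose t ht using hf
  -- total version
  let tt : (ι → Fin 3) → C(Menger ι k, ℝ) := fun w => if hw : ones w ≤ k then t w hw else 0
  have htt : ∀ (w : ι → Fin 3) (hw : ones w ≤ k) (x : Menger ι k),
      f (simC w hw x) = Circle.exp (tt w x) := by
    intro w hw x
    simp only [tt, dif_pos hw]; exact ht w hw x
  have hpi : (0:ℝ) < 2 * Real.pi := by positivity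
  -- the corner point
  let base : (ι → Fin 3) → ι → Fin 3 → ℤ := fun w i e =>
    if h : ∃ m : ℤ, ∀ x : Menger ι k, x.1 i = ept e →
      tt w x - tt (Function.update w i e) (updC i (1 - ept e) (one_sub_ept_cases e) x) =
        m * (2 * Real.pi) then h.choose else 0
  have hbase : ∀ w : ι → Fin 3, ones w ≤ k → ∀ i, w i = 1 → ∀ e : Fin 3, e ≠ 1 →
      ∀ x : Menger ι k, x.1 i = ept e →
      tt w x - tt (Function.update w i e) (updC i (1 - ept e) (one_sub_ept_cases e) x) =
        base w i e * (2 * Real.pi) := by
    intro w hw i hwi e he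
    have hex : ∃ m : ℤ, ∀ x : Menger ι k, x.1 i = ept e →
      tt w x - tt (Function.update w i e) (updC i (1 - ept e) (one_sub_ept_cases e) x) =
        m * (2 * Real.pi) := by
      set g : Menger ι k → ℝ := fun x =>
        (tt w x - tt (Function.update w i e) (updC i (1 - ept e) (one_sub_ept_cases e) x)) /
          (2 * Real.pi) with hg
      have hw' : ones (Function.update w i e) ≤ k := ((ones_update_lt w i e hwi he).le).trans hw
      have hint : ∀ x ∈ {x : Menger ι k | x.1 i = ept e}, ∃ n : ℤ, g x = n := by
        intro x hx
        have h1 : simC w hw x =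
            simC (Function.update w i e) hw' (updC i (1 - ept e) (one_sub_ept_cases e) x) := by
          apply Subtype.ext
          exact (sim_update hwi he hx).symm
        have h2 := htt w hw x
        rw [h1, htt _ hw'] at h2
        rw [eq_comm, Circle.exp_eq_exp] at h2
        obtain ⟨m, hm⟩ := h2
        refine ⟨m, ?_⟩
        rw [hg]
        simp only
        rw [hm]
        field_simp
        ring
      have hcont : ContinuousOn g {x : Menger ι k | x.1 i = ept e} := by
        apply Continuous.continuousOn
        exact ((tt w).continuous.sub ((tt _).continuous.comp (updC i _ _).continuous)).div_const _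
      by_cases hne : ∃ x0 : Menger ι k, x0.1 i = ept e
      · obtain ⟨x0, hx0⟩ := hne
        obtain ⟨m, hm⟩ := hint x0 hx0
        refine ⟨m, fun x hx => ?_⟩
        have := const_of_int (face_pre (by omega) i (ept e) (ept_cases e)) g hcont hint hx hx0
        rw [hm] at this
        rw [hg] at this
        simp only at this
        rw [div_eq_iff hpi.ne'] at this
        exact this
      · exact ⟨0, fun x hx => absurd ⟨x, hx⟩ hne⟩
    simp only [base, dif_pos hex]
    exact hex.choose_spec
  have hzero : (fun _ => 0 : ι → ℝ) ∈ Menger ι k := by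
    refine ⟨fun i => by simp, fun j => ?_⟩
    have : {i : ι | 1/3 < Int.fract ((3:ℝ) ^ j * 0) ∧ Int.fract ((3:ℝ) ^ j * 0) < 2/3} = ∅ := by
      ext i; simp
    rw [this]; simp
  -- square relation
  have hsq : ∀ w : ι → Fin 3, ones w ≤ k → ∀ i l : ι, i ≠ l → w i = 1 → w l = 1 →
      ∀ e e' : Fin 3, e ≠ 1 → e' ≠ 1 →
      base w i e + base (Function.update w i e) l e' =
        base w l e' + base (Function.update w l e') i e := by
    intro w hw i l hil hwi hwl e e' he he'
    let x : Menger ι k := updC i (ept e) (ept_cases e) (updC l (ept e') (ept_cases e') ⟨_, hzero⟩)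
    have hxi : x.1 i = ept e := by simp [x, updC]
    have hxl : x.1 l = ept e' := by
      simp only [x, updC, ContinuousMap.coe_mk]
      rw [Function.update_of_ne (Ne.symm hil)]; simp
    have hwi' : ones (Function.update w i e) ≤ k := ((ones_update_lt w i e hwi he).le).trans hw
    have hwl' : ones (Function.update w l e') ≤ k := ((ones_update_lt w l e' hwl he').le).trans hw
    have a1 := hbase w hw i hwi e he x hxi
    have a2 := hbase w hw l hwl e' he' x hxl
    have a3 := hbase _ hwi' l (by rw [Function.update_of_ne (Ne.symm hil)]; exact hwl) e' he'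
      (updC i (1 - ept e) (one_sub_ept_cases e) x)
      (by simp only [updC, ContinuousMap.coe_mk]; rw [Function.update_of_ne (Ne.symm hil)]; exact hxl)
    have a4 := hbase _ hwl' i (by rw [Function.update_of_ne hil]; exact hwi) e he
      (updC l (1 - ept e') (one_sub_ept_cases e') x)
      (by simp only [updC, ContinuousMap.coe_mk]; rw [Function.update_of_ne hil]; exact hxi)
    have hcomm : updC l (1 - ept e') (one_sub_ept_cases e') (updC i (1 - ept e) (one_sub_ept_cases e) x)
        = updC i (1 - ept e) (one_sub_ept_cases e) (updC l (1 - ept e') (one_sub_ept_cases e') x) := by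
      apply Subtype.ext
      simp only [updC, ContinuousMap.coe_mk]
      exact Function.update_comm hil _ _ _
    have hcommw : Function.update (Function.update w i e) l e' =
        Function.update (Function.update w l e') i e := Function.update_comm hil _ _ _
    rw [hcomm, hcommw] at a3
    have : ((base w i e + base (Function.update w i e) l e' : ℤ) : ℝ) * (2 * Real.pi) =
        ((base w l e' + base (Function.update w l e') i e : ℤ) : ℝ) * (2 * Real.pi) := by
      push_cast
      linarith
    have := mul_right_cancel₀ hpi.ne' this
    exact_mod_cast this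
  obtain ⟨h, hh⟩ := cocycle hk base hsq Finset.univ
  have hh' : ∀ w : ι → Fin 3, ones w ≤ k → ∀ i, w i = 1 → ∀ e : Fin 3, e ≠ 1 →
      base w i e = h w - h (Function.update w i e) := fun w hw i hwi e he =>
    hh w hw (fun j hj => absurd (Finset.mem_univ j) hj) i hwi e he
  -- corrected lifts
  let S : (ι → Fin 3) → Menger ι k → ℝ := fun w x => tt w x - h w * (2 * Real.pi)
  let can : Menger ι k → Menger ι k := fun y => ⟨_, (sim_surj y.2).1⟩
  have hcan : ∀ y : Menger ι k, simC (dig y.1) (dig_ones y.2) (can y) = y := by
    intro y; apply Subtype.ext; exact (sim_surj y.2).2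
  let Tf : Menger ι k → ℝ := fun y => S (dig y.1) (can y)
  have key : ∀ (r : ℕ) (w : ι → Fin 3) (hw : ones w ≤ k) (x : Menger ι k),
      (Finset.univ.filter (fun i => w i ≠ dig (sim w x.1) i)).card ≤ r →
      Tf (simC w hw x) = S w x := by
    intro r
    induction r with
    | zero =>
      intro w hw x hr
      have hwd : w = dig (sim w x.1) := by
        funext i
        by_contra hne
        have : i ∈ Finset.univ.filter (fun i => w i ≠ dig (sim w x.1) i) := by
          simp only [Finset.mem_filter, Finset.mem_univ, true_and]; exact hne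
        rw [Finset.card_eq_zero.mp (Nat.le_zero.mp hr)] at this
        simp at this
      have hxc : can (simC w hw x) = x := by
        apply Subtype.ext
        funext i
        have : can (simC w hw x) = ⟨_, (sim_surj (simC w hw x).2).1⟩ := rfl
        rw [this]
        simp only [simC, ContinuousMap.coe_mk]
        rw [← hwd]
        simp only [sim]; ring
      simp only [Tf]
      rw [hxc]
      have : dig (simC w hw x).1 = w := by
        simp only [simC, ContinuousMap.coe_mk]; exact hwd.symm
      rw [this]
    | succ r ih =>
      intro w hw x hr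
      by_cases hall : ∀ i, w i = dig (sim w x.1) i
      · exact ih w hw x (by
          have : Finset.univ.filter (fun i => w i ≠ dig (sim w x.1) i) = ∅ := by
            ext i; simp [← hall i]
          rw [this]; simp)
      · push Not at hall
        obtain ⟨i, hi⟩ := hall
        have hxi := x.2.1 i
        have h3 : w i = 0 ∨ w i = 1 ∨ w i = 2 := by
          generalize w i = z
          fin_cases z <;> simp
        have hmove : w i = 1 ∧ dig (sim w x.1) i ≠ 1 ∧ x.1 i = ept (dig (sim w x.1) i) := by
          rcases h3 with h3 | h3 | h3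
          · exfalso; apply hi
            rw [h3]
            simp only [dig, sim, h3]
            rw [if_pos]
            simp; linarith [hxi.2]
          · refine ⟨h3, ?_, ?_⟩
            · rw [← h3]; exact Ne.symm hi
            · rw [h3] at hi
              simp only [dig, sim, h3] at hi ⊢
              by_cases c1 : (x.1 i + (((1 : Fin 3) : ℕ) : ℝ)) / 3 ≤ 1/3
              · rw [if_pos c1]
                simp at c1
                simp [ept]; linarith [hxi.1]
              · rw [if_neg c1] at hi ⊢
                by_cases c2 : (x.1 i + (((1 : Fin 3) : ℕ) : ℝ)) / 3 < 2/3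
                · rw [if_pos c2] at hi; exact absurd rfl hi
                · rw [if_neg c2]
                  simp at c2
                  simp [ept]; linarith [hxi.2]
          · exfalso; apply hi
            rw [h3]
            simp only [dig, sim, h3]
            rw [if_neg, if_neg]
            · simp; linarith [hxi.1]
            · simp; linarith [hxi.1]
        obtain ⟨m1, m2, m3⟩ := hmove
        set e := dig (sim w x.1) i with he
        have hw' : ones (Function.update w i e) ≤ k := ((ones_update_lt w i e m1 m2).le).trans hw
        have hsim : sim (Function.update w i e) (Function.update x.1 i (1 - ept e)) = sim w x.1 :=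
          sim_update m1 m2 m3
        have hS : S w x = S (Function.update w i e) (updC i (1 - ept e) (one_sub_ept_cases e) x) := by
          simp only [S]
          have b1 := hbase w hw i m1 e m2 x m3
          have b2 := hh' w hw i m1 e m2
          have b2' : ((base w i e : ℤ) : ℝ) = h w - h (Function.update w i e) := by
            rw [b2]; push_cast; ring
          rw [b2'] at b1
          linarith
        have hsimC : simC w hw x =
            simC (Function.update w i e) hw' (updC i (1 - ept e) (one_sub_ept_cases e) x) :=
          Subtype.ext hsim.symm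
        rw [hS, hsimC]
        apply ih
        have e1 : (updC i (1 - ept e) (one_sub_ept_cases e) x).1 = Function.update x.1 i (1 - ept e) := rfl
        rw [e1, hsim]
        have hlt : (Finset.univ.filter (fun j => Function.update w i e j ≠ dig (sim w x.1) j)) ⊂
            (Finset.univ.filter (fun j => w j ≠ dig (sim w x.1) j)) := by
          rw [Finset.ssubset_iff_of_subset]
          · refine ⟨i, by simpa using hi, ?_⟩
            simp only [Finset.mem_filter, Finset.mem_univ, true_and, Function.update_self, not_not]
            exact he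
          · intro j hj
            simp only [Finset.mem_filter, Finset.mem_univ, true_and] at hj ⊢
            by_cases hji : j = i
            · subst hji; exact hi
            · rwa [Function.update_of_ne hji] at hj
        have := Finset.card_lt_card hlt
        omega
  -- continuity
  have : CompactSpace (Menger ι k) := isCompact_iff_compactSpace.mp (menger_isCompact k)
  let Φ : (Σ _ : {w : ι → Fin 3 // ones w ≤ k}, Menger ι k) → Menger ι k := fun p => simC p.1.1 p.1.2 p.2
  have hΦc : Continuous Φ := continuous_sigma fun w => (simC w.1 w.2).continuous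
  have hΦs : Function.Surjective Φ := fun y => ⟨⟨⟨dig y.1, dig_ones y.2⟩, can y⟩, hcan y⟩
  have hq : Topology.IsQuotientMap Φ := hΦc.isClosedMap.isQuotientMap hΦc hΦs
  have hT : Continuous Tf := by
    rw [hq.continuous_iff]
    refine continuous_sigma fun w => ?_
    have : (fun x => (Tf ∘ Φ) ⟨w, x⟩) = fun x => S w.1 x := by
      funext x
      exact key _ w.1 w.2 x le_rfl
    have e2 : (Tf ∘ Φ) ∘ Sigma.mk w = fun x => S w.1 x := this
    rw [show (fun x => (Tf ∘ Φ) ⟨w, x⟩) = fun x => S w.1 x from this]
    exact (tt w.1).continuous.sub continuous_const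
  refine ⟨⟨Tf, hT⟩, fun y => ?_⟩
  simp only [ContinuousMap.coe_mk, Tf, S]
  rw [Circle.exp_sub]
  have : Circle.exp (h (dig y.1) * (2 * Real.pi)) = 1 := by
    rw [Circle.exp_int_mul_two_pi]
  rw [this, div_one, ← htt (dig y.1) (dig_ones y.2) (can y), hcan]


/-- A continuous map into the circle with small oscillation lifts. -/
theorem lift_small {X : Type*} [TopologicalSpace X] (f : C(X, Circle))
    (hf : ∀ x y, dist (f x) (f y) < 1) : ∃ t : C(X, ℝ), ∀ x, f x = Circle.exp (t x) := by
  by_cases hX : Nonempty X
  · obtain ⟨x0⟩ := hX
    have hre : ∀ x, 0 < (((f x / f x0 : Circle) : ℂ)).re := by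
      intro x
      have h1 : dist ((f x / f x0 : Circle) : ℂ) 1 < 1 := by
        have h2 : dist (f x) (f x0) < 1 := hf x x0
        rw [Complex.dist_eq]
        have h3 : ((f x / f x0 : Circle) : ℂ) - 1 = ((f x : ℂ) - f x0) / f x0 := by
          rw [Circle.coe_div]
          field_simp [Circle.coe_ne_zero]
        rw [h3, norm_div, Circle.norm_coe, div_one]
        rw [← Complex.dist_eq]
        exact h2
      have h4 : |(((f x / f x0 : Circle) : ℂ) - 1).re| ≤ ‖((f x / f x0 : Circle) : ℂ) - 1‖ :=
        Complex.abs_re_le_norm _
      rw [Complex.dist_eq] at h1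
      have h5 := lt_of_le_of_lt h4 h1
      rw [abs_lt] at h5
      simp only [Complex.sub_re, Complex.one_re] at h5
      linarith [h5.1]
    have hc : Continuous fun x => Complex.arg (f x0 : ℂ) + Complex.arg ((f x / f x0 : Circle) : ℂ) := by
      refine continuous_const.add ?_
      rw [continuous_iff_continuousAt]
      intro x
      have : ContinuousAt (fun x => ((f x / f x0 : Circle) : ℂ)) x := by
        apply Continuous.continuousAt
        exact continuous_subtype_val.comp (f.continuous.div' continuous_const)
      exact ContinuousAt.comp (f := fun x => ((f x / f x0 : Circle) : ℂ))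
        (Complex.continuousAt_arg (Or.inl (hre x))) this
    refine ⟨⟨_, hc⟩, fun x => ?_⟩
    simp only [ContinuousMap.coe_mk]
    rw [Circle.exp_add, Circle.exp_arg, Circle.exp_arg]
    simp
  · exact ⟨0, fun x => absurd ⟨x⟩ hX⟩

omit [DecidableEq ι] in
theorem dist_sim {k : ℕ} (w : ι → Fin 3) (hw : ones w ≤ k) (x y : Menger ι k) :
    dist (simC w hw x) (simC w hw y) ≤ dist x y / 3 := by
  rw [Subtype.dist_eq, Subtype.dist_eq]
  rw [dist_pi_le_iff (by positivity)]
  intro i
  have h := dist_le_pi_dist x.1 y.1 i
  simp only [simC, ContinuousMap.coe_mk, sim]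
  rw [Real.dist_eq] at h ⊢
  have : (x.1 i + ((w i : ℕ) : ℝ)) / 3 - (y.1 i + ((w i : ℕ) : ℝ)) / 3 = (x.1 i - y.1 i) / 3 := by ring
  rw [this, abs_div]
  have : |(3:ℝ)| = 3 := by norm_num
  rw [this]
  linarith

omit [DecidableEq ι] in
theorem dist_le_one {k : ℕ} (x y : Menger ι k) : dist x y ≤ 1 := by
  rw [Subtype.dist_eq, dist_pi_le_iff (by norm_num)]
  intro i
  rw [Real.dist_eq, abs_le]
  have h1 := x.2.1 i
  have h2 := y.2.1 i
  constructor <;> linarith [h1.1, h1.2, h2.1, h2.2]

theorem lift_of_osc {k : ℕ} (hk : 2 ≤ k) (j : ℕ) : ∀ f : C(Menger ι k, Circle),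
    (∀ x y : Menger ι k, dist x y ≤ (1/3)^j → dist (f x) (f y) < 1) →
    ∃ t : C(Menger ι k, ℝ), ∀ x, f x = Circle.exp (t x) := by
  induction j with
  | zero =>
    intro f hf
    exact lift_small f fun x y => hf x y (by simpa using dist_le_one x y)
  | succ j ih =>
    intro f hf
    refine step hk f fun w hw => ?_
    obtain ⟨t, ht⟩ := ih (f.comp (simC w hw)) fun x y hxy => by
      apply hf
      refine (dist_sim w hw x y).trans ?_
      rw [pow_succ]
      linarith
    exact ⟨t, ht⟩


end LiftAux

/-- Every continuous map of the `k`-dimensional Menger compactum, `k ≥ 2`, into the circle lifts to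
the reals. -/
theorem menger_lift {ι : Type} [Fintype ι] [DecidableEq ι] {k : ℕ} (hk : 2 ≤ k)
    (f : C(Menger ι k, Circle)) :
    ∃ t : C(Menger ι k, ℝ), ∀ x, f x = Circle.exp (t x) := by
  have : CompactSpace (Menger ι k) := isCompact_iff_compactSpace.mp (menger_isCompact k)
  have huc : UniformContinuous f := CompactSpace.uniformContinuous_of_continuous f.continuous
  obtain ⟨δ, hδ, hf⟩ := Metric.uniformContinuous_iff.mp huc 1 one_pos
  obtain ⟨j, hj⟩ := exists_pow_lt_of_lt_one hδ (show (1/3 : ℝ) < 1 by norm_num)
  exact LiftAux.lift_of_osc hk j f fun x y hxy => hf (lt_of_le_of_lt hxy hj)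

end Pool.Agent.Helper87.AG
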