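import Mathlib

/-! Separation in locally connected spaces in which circle-valued maps lift. -/

set_option autoImplicit false

namespace Pool.Agent.Helper87.AG

open Set Topology

section Comp

variable {X : Type} [TopologicalSpace X]

theorem closure_comp_inter_subset {F : Set X} {x : X} :
    closure (connectedComponentIn F x) ∩ F ⊆ connectedComponentIn F x := by
  intro z hz
  by_cases hx : x ∈ F
  · have h1 : IsPreconnected (insert z (connectedComponentIn F x)) :=
      isPreconnected_connectedComponentIn.subset_closure (subset_insert _ _)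
        (insert_subset hz.1 subset_closure)
    have h2 : insert z (connectedComponentIn F x) ⊆ F :=
      insert_subset hz.2 (connectedComponentIn_subset _ _)
    exact h1.subset_connectedComponentIn (mem_insert_of_mem _ (mem_connectedComponentIn hx)) h2
      (mem_insert _ _)
  · rw [connectedComponentIn_eq_empty hx] at hz
    simp at hz

theorem mem_comp_symm {F : Set X} {x y : X} (h : y ∈ connectedComponentIn F x) :
    x ∈ connectedComponentIn F y := by
  rw [← connectedComponentIn_eq h]
  refine mem_connectedComponentIn ?_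
  by_contra hx
  rw [connectedComponentIn_eq_empty hx] at h
  exact h

theorem mem_comp_trans {F : Set X} {x y z : X} (h : y ∈ connectedComponentIn F x)
    (h' : z ∈ connectedComponentIn F y) : z ∈ connectedComponentIn F x := by
  rw [connectedComponentIn_eq h]
  exact h'

/-- If a preconnected subset `T` of `F` meets a component then it is contained in it. -/
theorem subset_comp_of_meets {F T : Set X} {x y : X} (hT : IsPreconnected T) (hTF : T ⊆ F)
    (hy : y ∈ T) (hyx : y ∈ connectedComponentIn F x) : T ⊆ connectedComponentIn F x := by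
  rw [connectedComponentIn_eq hyx]
  exact hT.subset_connectedComponentIn hy hTF

variable [PreconnectedSpace X] [LocallyConnectedSpace X]

theorem closure_comp_meets {K : Set X} (hK : IsClosed K) (hKne : K.Nonempty) {x : X}
    (hx : x ∉ K) : (closure (connectedComponentIn Kᶜ x) ∩ K).Nonempty := by
  by_contra h
  rw [not_nonempty_iff_eq_empty] at h
  have h1 : closure (connectedComponentIn Kᶜ x) ⊆ connectedComponentIn Kᶜ x := by
    intro z hz
    refine closure_comp_inter_subset ⟨hz, ?_⟩
    intro hzK
    have : z ∈ closure (connectedComponentIn Kᶜ x) ∩ K := ⟨hz, hzK⟩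
    rw [h] at this
    exact this
  have h2 : IsClopen (connectedComponentIn Kᶜ x) :=
    ⟨closure_eq_iff_isClosed.mp (subset_antisymm h1 subset_closure),
      hK.isOpen_compl.connectedComponentIn⟩
  rcases isClopen_iff.mp h2 with h3 | h3
  · have : x ∈ connectedComponentIn Kᶜ x := mem_connectedComponentIn hx
    rw [h3] at this
    exact this
  · obtain ⟨k, hk⟩ := hKne
    have : k ∈ connectedComponentIn Kᶜ x := by rw [h3]; trivial
    exact connectedComponentIn_subset _ _ this hk

omit [PreconnectedSpace X] [LocallyConnectedSpace X] in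
theorem closure_comp_union_eq (K : Set X) (x : X) :
    closure (connectedComponentIn Kᶜ x) ∪ K = connectedComponentIn Kᶜ x ∪ K := by
  apply subset_antisymm
  · rintro z (hz | hz)
    · by_cases hzK : z ∈ K
      · exact Or.inr hzK
      · exact Or.inl (closure_comp_inter_subset ⟨hz, hzK⟩)
    · exact Or.inr hz
  · exact union_subset_union_left _ subset_closure

omit [PreconnectedSpace X] [LocallyConnectedSpace X] in
theorem isClosed_comp_union {K : Set X} (hK : IsClosed K) (x : X) :
    IsClosed (connectedComponentIn Kᶜ x ∪ K) := by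
  rw [← closure_comp_union_eq]
  exact isClosed_closure.union hK

theorem isPreconnected_comp_union {K : Set X} (hK : IsClosed K) (hKc : IsPreconnected K)
    (hKne : K.Nonempty) (x : X) :
    IsPreconnected (connectedComponentIn Kᶜ x ∪ K) := by
  by_cases hx : x ∈ K
  · rw [connectedComponentIn_eq_empty (by simpa using hx), empty_union]
    exact hKc
  · rw [← closure_comp_union_eq]
    obtain ⟨z, hz1, hz2⟩ := closure_comp_meets hK hKne hx
    exact (isPreconnected_connectedComponentIn.closure).union z hz1 hz2 hKc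

end Comp

section Unicoherent

variable {X : Type} [MetricSpace X] [PreconnectedSpace X] [LocallyConnectedSpace X]

omit [PreconnectedSpace X] [LocallyConnectedSpace X] in
theorem floor_eq_of_avoid {s : Set X} (hs : IsPreconnected s) {g : X → ℝ} (hg : Continuous g)
    (h : ∀ x ∈ s, ∀ n : ℤ, g x ≠ n) {a b : X} (ha : a ∈ s) (hb : b ∈ s) :
    ⌊g a⌋ = ⌊g b⌋ := by
  have key : ∀ a ∈ s, ∀ b ∈ s, ⌊g a⌋ ≤ ⌊g b⌋ := by
    intro a ha b hb
    by_contra hlt
    push Not at hlt
    have h1 : g b < (⌊g a⌋ : ℤ) := Int.floor_lt.mp hlt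
    have h2 : ((⌊g a⌋ : ℤ) : ℝ) ≤ g a := Int.floor_le _
    obtain ⟨x, hx, hxg⟩ := hs.intermediate_value hb ha hg.continuousOn ⟨h1.le, h2⟩
    exact h x hx _ hxg
  exact le_antisymm (key a ha b hb) (key b hb a ha)

omit [PreconnectedSpace X] in
/-- Minimal separators are connected. -/
theorem isPreconnected_of_minimal
    (hlift : ∀ φ : C(X, Circle), ∃ θ : C(X, ℝ), ∀ x, φ x = Circle.exp (θ x))
    {E : Set X} (hE : IsClosed E) {a b : X} (ha : a ∉ E)
    (hsep : b ∉ connectedComponentIn Eᶜ a)
    (hmin : ∀ E' : Set X, IsClosed E' → E' ⊆ E → b ∉ connectedComponentIn E'ᶜ a → E' = E) :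
    IsPreconnected E := by
  classical
  rw [isPreconnected_iff_subset_of_disjoint_closed]
  intro u v hu hv huv hdisj
  by_contra hcon
  push Not at hcon
  obtain ⟨hnu, hnv⟩ := hcon
  set P := E ∩ u with hP
  set Q := E ∩ v with hQ
  have hPc : IsClosed P := hE.inter hu
  have hQc : IsClosed Q := hE.inter hv
  have hPQ : ∀ x ∈ P, x ∉ Q := by
    intro x hx hx'
    have : x ∈ E ∩ (u ∩ v) := ⟨hx.1, hx.2, hx'.2⟩
    rw [hdisj] at this
    exact this
  have hEPQ : ∀ x ∈ E, x ∈ P ∨ x ∈ Q := by
    intro x hx
    rcases huv hx with h | h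
    · exact Or.inl ⟨hx, h⟩
    · exact Or.inr ⟨hx, h⟩
  have hPne : P.Nonempty := by
    by_contra h
    rw [not_nonempty_iff_eq_empty] at h
    apply hnv
    intro x hx
    rcases hEPQ x hx with h' | h'
    · rw [h] at h'; exact h'.elim
    · exact h'.2
  have hQne : Q.Nonempty := by
    by_contra h
    rw [not_nonempty_iff_eq_empty] at h
    apply hnu
    intro x hx
    rcases hEPQ x hx with h' | h'
    · exact h'.2
    · rw [h] at h'; exact h'.elim
  have hPsep : b ∈ connectedComponentIn Pᶜ a := by
    by_contra h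
    have := hmin P hPc inter_subset_left h
    apply hnu
    rw [← this]
    exact inter_subset_right
  have hQsep : b ∈ connectedComponentIn Qᶜ a := by
    by_contra h
    have := hmin Q hQc inter_subset_left h
    apply hnv
    rw [← this]
    exact inter_subset_right
  set A := connectedComponentIn Eᶜ a with hA
  have hAo : IsOpen A := hE.isOpen_compl.connectedComponentIn
  have hfr : frontier A ⊆ E := by
    intro z hz
    by_contra hzE
    rw [hAo.frontier_eq] at hz
    exact hz.2 (closure_comp_inter_subset ⟨hz.1, hzE⟩)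
  -- the angle
  set s : X → ℝ := fun x => Metric.infDist x P with hs
  set t : X → ℝ := fun x => Metric.infDist x Q with ht
  have hsc : Continuous s := Metric.continuous_infDist_pt P
  have htc : Continuous t := Metric.continuous_infDist_pt Q
  have hs0 : ∀ x, 0 ≤ s x := fun x => Metric.infDist_nonneg
  have ht0 : ∀ x, 0 ≤ t x := fun x => Metric.infDist_nonneg
  have hsz : ∀ x, s x = 0 ↔ x ∈ P := fun x => (hPc.mem_iff_infDist_zero hPne).symm
  have htz : ∀ x, t x = 0 ↔ x ∈ Q := fun x => (hQc.mem_iff_infDist_zero hQne).symm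
  have hst : ∀ x, 0 < s x + t x := by
    intro x
    rcases (hs0 x).lt_or_eq with h | h
    · linarith [ht0 x]
    · rcases (ht0 x).lt_or_eq with h' | h'
      · linarith
      · exact (hPQ x ((hsz x).1 h.symm) ((htz x).1 h'.symm)).elim
  set r : X → ℝ := fun x => s x / (s x + t x) / 2 with hr
  have hrc : Continuous r := by
    apply Continuous.div_const
    exact hsc.div (hsc.add htc) (fun x => (hst x).ne')
  have hr0 : ∀ x, 0 ≤ r x := by
    intro x
    have := hst x
    have := hs0 x
    positivity
  have hr1 : ∀ x, r x ≤ 1/2 := by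
    intro x
    have h1 : s x / (s x + t x) ≤ 1 := by
      rw [div_le_one (hst x)]
      linarith [ht0 x]
    simp only [hr]
    linarith
  have hrP : ∀ x, r x = 0 ↔ x ∈ P := by
    intro x
    rw [← hsz x]
    simp only [hr]
    constructor
    · intro h
      rcases div_eq_zero_iff.1 h with h | h
      · rcases div_eq_zero_iff.1 h with h | h
        · exact h
        · exact absurd h (hst x).ne'
      · norm_num at h
    · intro h
      rw [h]
      simp
  have hrQ : ∀ x, r x = 1/2 ↔ x ∈ Q := by
    intro x
    rw [← htz x]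
    simp only [hr]
    constructor
    · intro h
      have h1 : s x / (s x + t x) = 1 := by linarith
      rw [div_eq_one_iff_eq (hst x).ne'] at h1
      linarith
    · intro h
      rw [h, add_zero, div_self]
      have := hst x
      rw [h] at this
      linarith
  -- the circle-valued map
  let φ : X → Circle := fun x => if x ∈ A then Circle.exp (2 * Real.pi * r x)
    else Circle.exp (-(2 * Real.pi * r x))
  have hφc : Continuous φ := by
    apply Continuous.if
    · intro x hx
      have hxE : x ∈ E := hfr hx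
      rcases hEPQ x hxE with h | h
      · rw [(hrP x).2 h]
        simp
      · rw [(hrQ x).2 h, Circle.exp_eq_exp]
        exact ⟨1, by push_cast; ring⟩
    · exact Circle.exp.continuous.comp (continuous_const.mul hrc)
    · exact Circle.exp.continuous.comp (continuous_const.mul hrc).neg
  obtain ⟨ψ, hψ⟩ := hlift ⟨φ, hφc⟩
  have hpi : (0:ℝ) < 2 * Real.pi := by positivity
  set g : X → ℝ := fun x => ψ x / (2 * Real.pi) with hg
  have hgc : Continuous g := ψ.continuous.div_const _
  have hgA : ∀ x ∈ A, ∃ m : ℤ, g x = m + r x := by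
    intro x hx
    have h1 := hψ x
    simp only [ContinuousMap.coe_mk, φ, if_pos hx] at h1
    obtain ⟨m, hm⟩ := Circle.exp_eq_exp.1 h1.symm
    refine ⟨m, ?_⟩
    simp only [hg]
    rw [hm]
    field_simp
    ring
  have hgN : ∀ x ∉ A, ∃ m : ℤ, g x = m - r x := by
    intro x hx
    have h1 := hψ x
    simp only [ContinuousMap.coe_mk, φ, if_neg hx] at h1
    obtain ⟨m, hm⟩ := Circle.exp_eq_exp.1 h1.symm
    refine ⟨m, ?_⟩
    simp only [hg]
    rw [hm]
    field_simp
    ring
  have haA : a ∈ A := mem_connectedComponentIn ha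
  obtain ⟨m, hm⟩ := hgA a haA
  obtain ⟨n, hn⟩ := hgN b hsep
  -- along the component avoiding P
  have hP1 : ∀ x ∈ connectedComponentIn Pᶜ a, ∀ k : ℤ, g x ≠ k := by
    intro x hx k hk
    have hxP : x ∉ P := connectedComponentIn_subset _ _ hx
    have hrx : 0 < r x := lt_of_le_of_ne (hr0 x) (fun h => hxP ((hrP x).1 h.symm))
    by_cases hxA : x ∈ A
    · obtain ⟨m', hm'⟩ := hgA x hxA
      have h2 : r x = ((k - m' : ℤ) : ℝ) := by push_cast; linarith
      have h3 : (0:ℝ) < ((k - m' : ℤ) : ℝ) := by rw [← h2]; exact hrx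
      have h4 : ((k - m' : ℤ) : ℝ) < 1 := by rw [← h2]; linarith [hr1 x]
      have h3' : (0:ℤ) < k - m' := by exact_mod_cast h3
      have h4' : k - m' < (1:ℤ) := by exact_mod_cast h4
      omega
    · obtain ⟨m', hm'⟩ := hgN x hxA
      have h2 : r x = ((m' - k : ℤ) : ℝ) := by push_cast; linarith
      have h3 : (0:ℝ) < ((m' - k : ℤ) : ℝ) := by rw [← h2]; exact hrx
      have h4 : ((m' - k : ℤ) : ℝ) < 1 := by rw [← h2]; linarith [hr1 x]
      have h3' : (0:ℤ) < m' - k := by exact_mod_cast h3
      have h4' : m' - k < (1:ℤ) := by exact_mod_cast h4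
      omega
  have hQ1 : ∀ x ∈ connectedComponentIn Qᶜ a, ∀ k : ℤ, g x + 1/2 ≠ k := by
    intro x hx k hk
    have hxQ : x ∉ Q := connectedComponentIn_subset _ _ hx
    have hrx : r x < 1/2 := lt_of_le_of_ne (hr1 x) (fun h => hxQ ((hrQ x).1 h))
    by_cases hxA : x ∈ A
    · obtain ⟨m', hm'⟩ := hgA x hxA
      have h2 : r x + 1/2 = ((k - m' : ℤ) : ℝ) := by push_cast; linarith
      have h3 : (0:ℝ) < ((k - m' : ℤ) : ℝ) := by rw [← h2]; linarith [hr0 x]
      have h4 : ((k - m' : ℤ) : ℝ) < 1 := by rw [← h2]; linarith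
      have h3' : (0:ℤ) < k - m' := by exact_mod_cast h3
      have h4' : k - m' < (1:ℤ) := by exact_mod_cast h4
      omega
    · obtain ⟨m', hm'⟩ := hgN x hxA
      have h2 : 1/2 - r x = ((k - m' : ℤ) : ℝ) := by push_cast; linarith
      have h3 : (0:ℝ) < ((k - m' : ℤ) : ℝ) := by rw [← h2]; linarith
      have h4 : ((k - m' : ℤ) : ℝ) < 1 := by rw [← h2]; linarith [hr0 x]
      have h3' : (0:ℤ) < k - m' := by exact_mod_cast h3
      have h4' : k - m' < (1:ℤ) := by exact_mod_cast h4
      omega
  have haP : a ∉ P := fun h => ha h.1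
  have haQ : a ∉ Q := fun h => ha h.1
  have hbP : b ∉ P := connectedComponentIn_subset _ _ hPsep
  have hbQ : b ∉ Q := connectedComponentIn_subset _ _ hQsep
  have f1 := floor_eq_of_avoid isPreconnected_connectedComponentIn hgc hP1
    (mem_connectedComponentIn haP) hPsep
  have f2 := floor_eq_of_avoid (g := fun x => g x + 1/2) isPreconnected_connectedComponentIn
    (hgc.add continuous_const) hQ1 (mem_connectedComponentIn haQ) hQsep
  have e1 : ⌊g a⌋ = m := by
    rw [Int.floor_eq_iff, hm]
    exact ⟨by linarith [hr0 a], by linarith [hr1 a]⟩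
  have e2 : ⌊g b⌋ = n - 1 := by
    have hrb : 0 < r b := lt_of_le_of_ne (hr0 b) (fun h => hbP ((hrP b).1 h.symm))
    rw [Int.floor_eq_iff, hn]
    push_cast
    exact ⟨by linarith [hr1 b], by linarith⟩
  have e3 : ⌊g a + 1/2⌋ = m := by
    have hra : r a < 1/2 := lt_of_le_of_ne (hr1 a) (fun h => haQ ((hrQ a).1 h))
    rw [Int.floor_eq_iff, hm]
    exact ⟨by linarith [hr0 a], by linarith⟩
  have e4 : ⌊g b + 1/2⌋ = n := by
    have hrb : 0 < r b := lt_of_le_of_ne (hr0 b) (fun h => hbP ((hrP b).1 h.symm))
    rw [Int.floor_eq_iff, hn]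
    exact ⟨by linarith [hr1 b], by linarith⟩
  rw [e1, e2] at f1
  simp only [e3, e4] at f2
  omega

/-- A closed separator contains a connected closed separator. -/
theorem exists_connected_separator
    (hlift : ∀ φ : C(X, Circle), ∃ θ : C(X, ℝ), ∀ x, φ x = Circle.exp (θ x))
    {E : Set X} (hE : IsClosed E) {a b : X} (ha : a ∉ E)
    (hsep : b ∉ connectedComponentIn Eᶜ a) :
    ∃ E' : Set X, E' ⊆ E ∧ IsClosed E' ∧ IsPreconnected E' ∧ E'.Nonempty ∧
      b ∉ connectedComponentIn E'ᶜ a := by
  let S : Set (Set X) := {C | IsClosed C ∧ C ⊆ E ∧ b ∉ connectedComponentIn Cᶜ a}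
  have hES : E ∈ S := ⟨hE, subset_rfl, hsep⟩
  obtain ⟨m, hmE, hm⟩ := zorn_superset_nonempty S (by
    intro c hcS hchain hcne
    refine ⟨⋂₀ c, ⟨isClosed_sInter (fun t ht => (hcS ht).1), ?_, ?_⟩, fun s hs => sInter_subset_of_mem hs⟩
    · obtain ⟨t, ht⟩ := hcne
      exact (sInter_subset_of_mem ht).trans (hcS ht).2.1
    · intro hb
      -- the union of the components
      set L : Set X := ⋃ C ∈ c, connectedComponentIn Cᶜ a with hL
      have hLo : IsOpen L := by
        apply isOpen_biUnion
        intro C hC
        exact (hcS hC).1.isOpen_compl.connectedComponentIn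
      have haC : ∀ C ∈ c, a ∉ C := fun C hC h => ha ((hcS hC).2.1 h)
      have haL : a ∈ L := by
        obtain ⟨t, ht⟩ := hcne
        exact mem_biUnion ht (mem_connectedComponentIn (haC t ht))
      have ha' : a ∈ (⋂₀ c)ᶜ := by
        obtain ⟨t, ht⟩ := hcne
        intro h
        exact haC t ht (mem_sInter.1 h t ht)
      have hsub : connectedComponentIn (⋂₀ c)ᶜ a ⊆ L := by
        refine isPreconnected_connectedComponentIn.subset_of_closure_inter_subset hLo
          ⟨a, mem_connectedComponentIn ha', haL⟩ ?_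
        rintro z ⟨hzL, hzP⟩
        have hz1 : z ∈ (⋂₀ c)ᶜ := connectedComponentIn_subset _ _ hzP
        obtain ⟨C, hC, hzC⟩ : ∃ C ∈ c, z ∉ C := by
          by_contra h
          push Not at h
          exact hz1 (mem_sInter.2 h)
        have hV : IsOpen (connectedComponentIn Cᶜ z) :=
          (hcS hC).1.isOpen_compl.connectedComponentIn
        have hzV : z ∈ connectedComponentIn Cᶜ z := mem_connectedComponentIn hzC
        obtain ⟨y, hyV, hyL⟩ := mem_closure_iff.1 hzL _ hV hzV
        obtain ⟨C', hC', hyC'⟩ := mem_iUnion₂.1 hyL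
        rcases hchain.total hC hC' with hCC | hCC
        · -- C ⊆ C'
          have h1 : y ∈ connectedComponentIn Cᶜ a :=
            connectedComponentIn_mono _ (compl_subset_compl.2 hCC) hyC'
          have h2 : connectedComponentIn Cᶜ z ⊆ connectedComponentIn Cᶜ a :=
            subset_comp_of_meets isPreconnected_connectedComponentIn
              (connectedComponentIn_subset _ _) hyV h1
          exact mem_biUnion hC (h2 hzV)
        · have h2 : connectedComponentIn Cᶜ z ⊆ connectedComponentIn C'ᶜ a :=
            subset_comp_of_meets isPreconnected_connectedComponentIn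
              ((connectedComponentIn_subset _ _).trans (compl_subset_compl.2 hCC)) hyV hyC'
          exact mem_biUnion hC' (h2 hzV)
      obtain ⟨C, hC, hbC⟩ := mem_iUnion₂.1 (hsub hb)
      exact (hcS hC).2.2 hbC) E hES
  obtain ⟨hmS, hmin⟩ := hm
  refine ⟨m, hmE, hmS.1, ?_, ?_, hmS.2.2⟩
  · refine isPreconnected_of_minimal hlift hmS.1 (fun h => ha (hmE h)) hmS.2.2 ?_
    intro E' hE' hE'm hb
    exact subset_antisymm hE'm (hmin ⟨hE', hE'm.trans hmE, hb⟩ hE'm)
  · by_contra h
    rw [not_nonempty_iff_eq_empty] at h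
    apply hmS.2.2
    rw [h, compl_empty, connectedComponentIn_univ, PreconnectedSpace.connectedComponent_eq_univ]
    trivial

end Unicoherent

end Pool.Agent.Helper87.AG
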